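import Pool.Agent.BR4.Stmts

/-! # Row ASM of the exceptional set of breadth three -/

set_option autoImplicit false

namespace Pool.Agent.BR4

open Finset Pool.Agent.Helper64.Breadth

namespace Asm54

theorem odd_of_HH {s β n b x D : ℕ} (hs : s = 1 ∨ s = 2) (hty : Ty s β n) (hb : 1 ≤ b)
    (hD : D ∣ ∏ q ∈ HH s b n x, q) : D % 2 = 1 := by
  have h1 : Odd (∏ q ∈ HH s b n x, q) := by
    apply Finset.prod_induction _ Odd (fun a b ha hb => ha.mul hb) odd_one
    intro q hq
    unfold HH at hq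
    rw [Finset.mem_filter, Finset.mem_Icc] at hq
    obtain ⟨-, hp, hd, hn⟩ := hq
    rcases hp.eq_two_or_odd' with h2 | h2
    · exfalso
      subst h2
      rcases hs with rfl | rfl
      · rcases hty with ⟨-, h⟩ | ⟨h, -⟩ | ⟨h, -⟩
        · have : (n + 2 * b) % 2 = 0 := Nat.mod_eq_zero_of_dvd hn
          omega
        · omega
        · omega
      · have h5 : 4 * b - 1 ∣ 5 := by simpa using hd
        rcases (Nat.dvd_prime (by norm_num : Nat.Prime 5)).1 h5 with h | h <;> omega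
    · exact h2
  have h2 : Odd D := Odd.of_dvd_nat h1 hD
  exact Nat.odd_iff.1 h2

theorem prod_dvd {s n b x : ℕ} (hb : 1 ≤ b) : ∏ q ∈ HH s b n x, q ∣ n + 2 * b := by
  apply Finset.prod_primes_dvd
  · intro q hq
    unfold HH at hq
    exact (Finset.mem_filter.1 hq).2.1.prime
  · intro q hq
    unfold HH at hq
    exact (Finset.mem_filter.1 hq).2.2.2

theorem two_pow_le {s β n b x t : ℕ} (h2 : Blk) (h3 : Sol) (hs : s = 1 ∨ s = 2) (hty : Ty s β n) (hb : 1 ≤ b)
    (hbβ : s = 2 → b % 2 = β) (hn : 1 ≤ n) (ht : 1 + (4 * b - 1).totient * t ≤ (HH s b n x).card) :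
    2 ^ t ≤ c n + 1 := by
  have hQ := h2 (4 * b - 1) s t (HH s b n x) (by omega) hs (fun q hq => by
    unfold HH at hq
    exact ⟨(Finset.mem_filter.1 hq).2.1, (Finset.mem_filter.1 hq).2.2.1⟩) ht
  refine hQ.trans (le_trans ?_ (h3 s β n b hty hb hbβ hn))
  apply Finset.card_le_card
  intro D hD
  rw [Finset.mem_filter, Nat.mem_divisors] at hD ⊢
  exact ⟨⟨hD.1.1.trans (prod_dvd hb), by omega⟩, odd_of_HH hs hty hb hD.1.1, hD.2⟩

theorem one {s β M : ℕ} {d : ℝ} (h2 : Blk) (h3 : Sol) (hs : s = 1 ∨ s = 2) (hd : 0 < d) :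
    ∃ d' R : ℝ, 0 < d' ∧ 1 ≤ R ∧ ∀ x : ℕ, 2 ≤ x → R ≤ Real.log x → ∀ n ∈ Icc 1 x, Ty s β n →
      (c n : ℝ) < Real.log x ^ d' → ∀ b ∈ TT s β M, ((HH s b n x).card : ℝ) < d * Real.log (Real.log x) := by
  set Φ : ℝ := 4 * M + 1 with hΦ
  have hΦ1 : 1 ≤ Φ := by
    have : (0 : ℝ) ≤ M := Nat.cast_nonneg _
    linarith
  have hl2 : 0 < Real.log 2 := Real.log_pos (by norm_num)
  set d' : ℝ := d * Real.log 2 / (2 * Φ) with hd'
  have hd'0 : 0 < d' := by positivity
  refine ⟨d', max (max (6 ^ (1 / d')) (Real.exp (1 / d))) 1, hd'0, le_max_right _ _, ?_⟩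
  intro x hx hR n hn hty hc b hb
  have hR1 : (6 : ℝ) ^ (1 / d') ≤ Real.log x := ((le_max_left _ _).trans (le_max_left _ _)).trans hR
  have hR2 : Real.exp (1 / d) ≤ Real.log x := ((le_max_right _ _).trans (le_max_left _ _)).trans hR
  have hR3 : 1 ≤ Real.log x := (le_max_right _ _).trans hR
  by_contra hcon
  push Not at hcon
  have hL0 : 0 < Real.log x := by linarith
  have hLL : 1 / d ≤ Real.log (Real.log x) := by
    rw [Real.le_log_iff_exp_le hL0]
    exact hR2
  have hLL1 : 1 ≤ d * Real.log (Real.log x) := by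
    rw [div_le_iff₀ hd] at hLL
    linarith
  have hbM := hb
  unfold TT at hbM
  rw [Finset.mem_filter, Finset.mem_Icc] at hbM
  obtain ⟨⟨hb1, hb2⟩, hb3⟩ := hbM
  have hφ0 : 0 < (4 * b - 1).totient := Nat.totient_pos.2 (by omega)
  have hφ1 : ((4 * b - 1).totient : ℝ) ≤ Φ := by
    have h1 : (4 * b - 1).totient ≤ 4 * M := (Nat.totient_le _).trans (by omega)
    have h4 : (((4 * b - 1).totient : ℕ) : ℝ) ≤ ((4 * M : ℕ) : ℝ) := by exact_mod_cast h1
    push_cast at h4
    linarith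
  have hφr : (0 : ℝ) < ((4 * b - 1).totient : ℝ) := by exact_mod_cast hφ0
  set h := (HH s b n x).card with hh
  have hh1 : 1 ≤ h := by
    have : (1 : ℝ) ≤ h := by linarith
    exact_mod_cast this
  set t := (h - 1) / (4 * b - 1).totient with ht
  have ht1 : 1 + (4 * b - 1).totient * t ≤ h := by
    have := Nat.mul_div_le (h - 1) (4 * b - 1).totient
    rw [← ht] at this
    omega
  have ht2 : ((h : ℝ) - 1) / Φ < t + 1 := by
    have h5 : h - 1 < (4 * b - 1).totient * (t + 1) := by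
      have := Nat.lt_mul_div_succ (h - 1) hφ0
      rw [← ht] at this
      exact this
    have h6 : (((h - 1 : ℕ) : ℕ) : ℝ) < ((4 * b - 1).totient : ℝ) * (t + 1) := by exact_mod_cast h5
    rw [Nat.cast_sub hh1, Nat.cast_one] at h6
    rw [div_lt_iff₀ (by linarith)]
    have h7 : ((4 * b - 1).totient : ℝ) * (t + 1) ≤ Φ * (t + 1) := by gcongr
    linarith
  have hpow := two_pow_le h2 h3 hs hty hb1 (fun h8 => by
    rcases hb3 with h9 | h9
    · omega
    · exact h9) (Finset.mem_Icc.1 hn).1 ht1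
  have hpow' : (2 : ℝ) ^ t ≤ c n + 1 := by exact_mod_cast hpow
  set L := Real.log x with hL
  have key : L ^ (2 * d') ≤ 4 * 2 ^ t := by
    have h10 : (4 : ℝ) * 2 ^ t = Real.exp (Real.log 2 * ((t + 2 : ℕ) : ℝ)) := by
      rw [mul_comm (Real.log 2), ← Real.log_pow, Real.exp_log (by positivity), pow_add]
      ring
    rw [h10, Real.rpow_def_of_pos hL0]
    apply Real.exp_le_exp.2
    have h11 : Real.log L * (2 * d') = Real.log 2 * ((d * Real.log L) / Φ) := by
      rw [hd']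
      field_simp
    rw [h11]
    apply mul_le_mul_of_nonneg_left _ hl2.le
    have h12 : (d * Real.log L) / Φ ≤ (h : ℝ) / Φ := by
      apply div_le_div_of_nonneg_right hcon
      linarith
    have h13 : (h : ℝ) / Φ = ((h : ℝ) - 1) / Φ + 1 / Φ := by ring
    have h14 : 1 / Φ ≤ 1 := by
      rw [div_le_one (by linarith)]
      exact hΦ1
    push_cast
    linarith
  have h6 : 6 ≤ L ^ d' := by
    calc (6 : ℝ) = (6 ^ (1 / d')) ^ d' := by
          rw [← Real.rpow_mul (by norm_num), one_div, inv_mul_cancel₀ hd'0.ne', Real.rpow_one]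
      _ ≤ L ^ d' := Real.rpow_le_rpow (by positivity) hR1 hd'0.le
  have h7 : L ^ (2 * d') = L ^ d' * L ^ d' := by
    rw [two_mul, Real.rpow_add hL0]
  rw [h7] at key
  nlinarith

end Asm54

open Asm54 in
theorem asm54 : Asm := by
  intro h1 h2 h3 A
  obtain ⟨M1, d1, B1, hd1, H1⟩ := h1 A 1 0 (Or.inl rfl) (Or.inl rfl)
  obtain ⟨M2, d2, B2, hd2, H2⟩ := h1 A 2 1 (Or.inr rfl) (Or.inr rfl)
  obtain ⟨M3, d3, B3, hd3, H3⟩ := h1 A 2 0 (Or.inr rfl) (Or.inl rfl)
  obtain ⟨e1, R1, he1, hR1, G1⟩ := one (s := 1) (β := 0) (M := M1) h2 h3 (Or.inl rfl) hd1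
  obtain ⟨e2, R2, he2, hR2, G2⟩ := one (s := 2) (β := 1) (M := M2) h2 h3 (Or.inr rfl) hd2
  obtain ⟨e3, R3, he3, hR3, G3⟩ := one (s := 2) (β := 0) (M := M3) h2 h3 (Or.inr rfl) hd3
  set d := min e1 (min e2 e3) with hd
  have hd0 : 0 < d := lt_min he1 (lt_min he2 he3)
  have hde1 : d ≤ e1 := min_le_left _ _
  have hde2 : d ≤ e2 := (min_le_right _ _).trans (min_le_left _ _)
  have hde3 : d ≤ e3 := (min_le_right _ _).trans (min_le_right _ _)
  set R := max R1 (max R2 R3) with hR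
  have hRR1 : R1 ≤ R := le_max_left _ _
  have hRR2 : R2 ≤ R := (le_max_left _ _).trans (le_max_right _ _)
  have hRR3 : R3 ≤ R := (le_max_right _ _).trans (le_max_right _ _)
  refine ⟨d, |B1| + |B2| + |B3| + R ^ A, hd0, fun x hx => ?_⟩
  have hx0 : (0 : ℝ) < x := by exact_mod_cast (show 0 < x by omega)
  have hL : 0 < Real.log x := Real.log_pos (by exact_mod_cast (show 1 < x by omega))
  have hLA : 0 < Real.log x ^ A := by positivity
  rcases le_or_gt R (Real.log x) with hRx | hRx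
  · have hL1 : 1 ≤ Real.log x := hR1.trans (hRR1.trans hRx)
    have hsub : (Icc 1 x).filter (fun n => (c n : ℝ) < Real.log x ^ d) ⊆
        ((Icc 1 x).filter (fun n => ∀ b ∈ TT 1 0 M1, ((HH 1 b n x).card : ℝ) < d1 * Real.log (Real.log x)) ∪
        (Icc 1 x).filter (fun n => ∀ b ∈ TT 2 1 M2, ((HH 2 b n x).card : ℝ) < d2 * Real.log (Real.log x))) ∪
        (Icc 1 x).filter (fun n => ∀ b ∈ TT 2 0 M3, ((HH 2 b n x).card : ℝ) < d3 * Real.log (Real.log x)) := by
      intro n hn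
      rw [Finset.mem_filter] at hn
      obtain ⟨hn1, hn2⟩ := hn
      have m1 : Real.log x ^ d ≤ Real.log x ^ e1 := Real.rpow_le_rpow_of_exponent_le hL1 hde1
      have m2 : Real.log x ^ d ≤ Real.log x ^ e2 := Real.rpow_le_rpow_of_exponent_le hL1 hde2
      have m3 : Real.log x ^ d ≤ Real.log x ^ e3 := Real.rpow_le_rpow_of_exponent_le hL1 hde3
      rw [Finset.mem_union, Finset.mem_union, Finset.mem_filter, Finset.mem_filter, Finset.mem_filter]
      have h4 : n % 4 = 0 ∨ n % 4 = 2 ∨ n % 2 = 1 := by omega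
      rcases h4 with h4 | h4 | h4
      · exact Or.inl (Or.inr ⟨hn1, G2 x hx (hRR2.trans hRx) n hn1 (Or.inr (Or.inl ⟨rfl, rfl, h4⟩)) (by linarith)⟩)
      · exact Or.inr ⟨hn1, G3 x hx (hRR3.trans hRx) n hn1 (Or.inr (Or.inr ⟨rfl, rfl, h4⟩)) (by linarith)⟩
      · exact Or.inl (Or.inl ⟨hn1, G1 x hx (hRR1.trans hRx) n hn1 (Or.inl ⟨rfl, h4⟩) (by linarith)⟩)
    have hcard := (Finset.card_le_card hsub).trans ((Finset.card_union_le _ _).trans
      (Nat.add_le_add_right (Finset.card_union_le _ _) _))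
    have hcard' : (((Icc 1 x).filter (fun n => (c n : ℝ) < Real.log x ^ d)).card : ℝ) ≤
        (((Icc 1 x).filter (fun n => ∀ b ∈ TT 1 0 M1, ((HH 1 b n x).card : ℝ) < d1 * Real.log (Real.log x))).card : ℝ) +
        (((Icc 1 x).filter (fun n => ∀ b ∈ TT 2 1 M2, ((HH 2 b n x).card : ℝ) < d2 * Real.log (Real.log x))).card : ℝ) +
        (((Icc 1 x).filter (fun n => ∀ b ∈ TT 2 0 M3, ((HH 2 b n x).card : ℝ) < d3 * Real.log (Real.log x))).card : ℝ) := by
      exact_mod_cast hcard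
    have k1 := H1 x hx
    have k2 := H2 x hx
    have k3 := H3 x hx
    have ab : ∀ B : ℝ, B * x / Real.log x ^ A ≤ |B| * x / Real.log x ^ A := by
      intro B
      have := le_abs_self B
      gcongr
    have k4 : 0 ≤ R ^ A * x / Real.log x ^ A := by
      have : 0 ≤ R := by linarith
      positivity
    have k5 : (|B1| + |B2| + |B3| + R ^ A) * x / Real.log x ^ A = |B1| * x / Real.log x ^ A +
        |B2| * x / Real.log x ^ A + |B3| * x / Real.log x ^ A + R ^ A * x / Real.log x ^ A := by ring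
    rw [k5]
    have := ab B1
    have := ab B2
    have := ab B3
    linarith
  · have hcard : ((Icc 1 x).filter (fun n => (c n : ℝ) < Real.log x ^ d)).card ≤ x := by
      refine (Finset.card_filter_le _ _).trans ?_
      rw [Nat.card_Icc]
      omega
    have hcard' : (((Icc 1 x).filter (fun n => (c n : ℝ) < Real.log x ^ d)).card : ℝ) ≤ x := by exact_mod_cast hcard
    refine hcard'.trans ?_
    rw [le_div_iff₀ hLA]
    have h5 : Real.log x ^ A ≤ R ^ A := pow_le_pow_left₀ hL.le hRx.le A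
    have h6 : R ^ A ≤ |B1| + |B2| + |B3| + R ^ A := by
      have := abs_nonneg B1
      have := abs_nonneg B2
      have := abs_nonneg B3
      linarith
    calc (x : ℝ) * Real.log x ^ A ≤ x * (|B1| + |B2| + |B3| + R ^ A) := by
          apply mul_le_mul_of_nonneg_left (h5.trans h6) hx0.le
      _ = (|B1| + |B2| + |B3| + R ^ A) * x := by ring

end Pool.Agent.BR4
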