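import Mathlib

/-!
# MP_5de915_nt: blocks of primes in one class give many divisors in the class
-/

set_option autoImplicit false

namespace Pool.Agent.BR4.Blk75

open Finset

lemma cop (m s q : ℕ) (h : m ∣ s * q + 1) : Nat.Coprime q m := by
  have h1 : Nat.gcd q m ∣ s * q + 1 := (Nat.gcd_dvd_right q m).trans h
  have h2 : Nat.gcd q m ∣ s * q := (Nat.gcd_dvd_left q m).mul_left s
  have h3 : Nat.gcd q m ∣ 1 := (Nat.dvd_add_right h2).mp h1
  exact Nat.dvd_one.mp h3

lemma cops (m s q : ℕ) (h : m ∣ s * q + 1) : Nat.Coprime m s := by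
  have h1 : Nat.gcd m s ∣ s * q + 1 := (Nat.gcd_dvd_left m s).trans h
  have h2 : Nat.gcd m s ∣ s * q := (Nat.gcd_dvd_right m s).mul_right q
  have h3 : Nat.gcd m s ∣ 1 := (Nat.dvd_add_right h2).mp h1
  exact Nat.dvd_one.mp h3

lemma same (m s q r : ℕ) (h : m ∣ s * q + 1) (h' : m ∣ s * r + 1) : q ≡ r [MOD m] := by
  have h1 : s * q + 1 ≡ s * r + 1 [MOD m] :=
    (Nat.modEq_zero_iff_dvd.2 h).trans (Nat.modEq_zero_iff_dvd.2 h').symm
  have h2 : s * q ≡ s * r [MOD m] := Nat.ModEq.add_right_cancel' 1 h1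
  exact Nat.ModEq.cancel_left_of_coprime (cops m s q h) h2

lemma prodpow (m r : ℕ) (B : Finset ℕ) (hB : ∀ q ∈ B, q ≡ r [MOD m]) :
    (∏ q ∈ B, q) ≡ r ^ B.card [MOD m] := by
  classical
  induction B using Finset.induction_on with
  | empty => simpa using Nat.ModEq.refl 1
  | insert a B ha ih =>
    rw [Finset.prod_insert ha, Finset.card_insert_of_notMem ha, pow_succ, mul_comm (r ^ B.card) r]
    exact Nat.ModEq.mul (hB a (Finset.mem_insert_self a B))
      (ih (fun q hq => hB q (Finset.mem_insert_of_mem hq)))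

lemma prodone (m s : ℕ) (B : Finset ℕ) (hB : ∀ q ∈ B, m ∣ s * q + 1) (hc : B.card = Nat.totient m) :
    (∏ q ∈ B, q) ≡ 1 [MOD m] := by
  rcases B.eq_empty_or_nonempty with rfl | ⟨r, hr⟩
  · simpa using Nat.ModEq.refl 1
  · have h1 := prodpow m r B (fun q hq => same m s q r (hB q hq) (hB r hr))
    rw [hc] at h1
    exact h1.trans (Nat.ModEq.pow_totient (cop m s r (hB r hr)))

lemma step (m s D P : ℕ) (h : m ∣ s * D + 1) (hP : P ≡ 1 [MOD m]) : m ∣ s * (D * P) + 1 := by
  have h1 : s * (D * P) + 1 ≡ s * (D * 1) + 1 [MOD m] :=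
    Nat.ModEq.add_right 1 (Nat.ModEq.mul_left s (Nat.ModEq.mul_left D hP))
  rw [mul_one] at h1
  exact Nat.modEq_zero_iff_dvd.1 (h1.trans (Nat.modEq_zero_iff_dvd.2 h))

theorem blk (m s : ℕ) (t : ℕ) : ∀ Q : Finset ℕ, (∀ q ∈ Q, q.Prime ∧ m ∣ s * q + 1) →
    1 + Nat.totient m * t ≤ Q.card →
    2 ^ t ≤ ((∏ q ∈ Q, q).divisors.filter (fun D => m ∣ s * D + 1)).card := by
  classical
  induction t with
  | zero =>
    intro Q hQ hc
    obtain ⟨r, hr⟩ : Q.Nonempty := Finset.card_pos.1 (by omega)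
    have h0 : (∏ q ∈ Q, q) ≠ 0 := Finset.prod_ne_zero_iff.2 (fun q hq => (hQ q hq).1.ne_zero)
    rw [pow_zero]
    refine Finset.card_pos.2 ⟨r, ?_⟩
    rw [Finset.mem_filter, Nat.mem_divisors]
    exact ⟨⟨Finset.dvd_prod_of_mem (fun q => q) hr, h0⟩, (hQ r hr).2⟩
  | succ t ih =>
    intro Q hQ hc
    obtain ⟨r, hr⟩ : Q.Nonempty := Finset.card_pos.1 (by omega)
    have hm : 0 < m := by
      rcases Nat.eq_zero_or_pos m with h | h
      · exfalso
        have := (hQ r hr).2
        rw [h, zero_dvd_iff] at this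
        omega
      · exact h
    have hphi : 0 < Nat.totient m := Nat.totient_pos.2 hm
    have hle : Nat.totient m ≤ Q.card := by
      rw [mul_add, mul_one] at hc
      omega
    obtain ⟨B, hBQ, hB⟩ := Finset.exists_subset_card_eq hle
    have hBne : B.Nonempty := Finset.card_pos.1 (by omega)
    have hcard : (Q \ B).card = Q.card - Nat.totient m := by
      rw [Finset.card_sdiff_of_subset hBQ, hB]
    have hih := ih (Q \ B) (fun q hq => hQ q (Finset.mem_sdiff.1 hq).1) (by
      rw [hcard]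
      rw [mul_add, mul_one] at hc
      omega)
    have hP := prodone m s B (fun q hq => (hQ q (hBQ hq)).2) hB
    set P := ∏ q ∈ B, q with hPdef
    set R := ∏ q ∈ Q \ B, q with hRdef
    have hQR : (∏ q ∈ Q, q) = R * P := by
      rw [hPdef, hRdef]
      exact (Finset.prod_sdiff hBQ).symm
    have hP0 : P ≠ 0 := Finset.prod_ne_zero_iff.2 (fun q hq => (hQ q (hBQ hq)).1.ne_zero)
    have hR0 : R ≠ 0 := Finset.prod_ne_zero_iff.2 (fun q hq => (hQ q (Finset.mem_sdiff.1 hq).1).1.ne_zero)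
    have hcop : Nat.Coprime P R := by
      rw [hPdef, hRdef]
      refine Nat.Coprime.prod_left (fun i hi => Nat.Coprime.prod_right (fun j hj => ?_))
      have hj' := Finset.mem_sdiff.1 hj
      refine (Nat.coprime_primes (hQ i (hBQ hi)).1 (hQ j hj'.1).1).2 (fun e => ?_)
      rw [e] at hi
      exact hj'.2 hi
    have hP1 : P ≠ 1 := by
      obtain ⟨b, hb⟩ := hBne
      intro e
      have h1 : b ∣ P := Finset.dvd_prod_of_mem (fun q => q) hb
      rw [e, Nat.dvd_one] at h1
      exact (hQ b (hBQ hb)).1.one_lt.ne' h1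
    set S := R.divisors.filter (fun D => m ∣ s * D + 1) with hS
    have hdisj : Disjoint S (S.image (fun D => D * P)) := by
      rw [Finset.disjoint_left]
      intro D hD hD'
      rw [Finset.mem_image] at hD'
      obtain ⟨E, hE, rfl⟩ := hD'
      rw [hS, Finset.mem_filter, Nat.mem_divisors] at hD
      have h1 : P ∣ R := (Dvd.intro_left E rfl).trans hD.1.1
      exact hP1 (Nat.Coprime.eq_one_of_dvd hcop h1)
    have hinj : (S.image (fun D => D * P)).card = S.card :=
      Finset.card_image_of_injective S (fun a b hab => Nat.eq_of_mul_eq_mul_right (Nat.pos_of_ne_zero hP0) hab)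
    have hsub : S ∪ S.image (fun D => D * P) ⊆ (∏ q ∈ Q, q).divisors.filter (fun D => m ∣ s * D + 1) := by
      intro D hD
      rw [Finset.mem_filter, Nat.mem_divisors, hQR]
      rcases Finset.mem_union.1 hD with h | h
      · rw [hS, Finset.mem_filter, Nat.mem_divisors] at h
        exact ⟨⟨h.1.1.mul_right P, mul_ne_zero hR0 hP0⟩, h.2⟩
      · rw [Finset.mem_image] at h
        obtain ⟨E, hE, rfl⟩ := h
        rw [hS, Finset.mem_filter, Nat.mem_divisors] at hE
        exact ⟨⟨Nat.mul_dvd_mul hE.1.1 dvd_rfl, mul_ne_zero hR0 hP0⟩, step m s E P hE.2 hP⟩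
    calc 2 ^ (t + 1) = 2 ^ t + 2 ^ t := by ring
      _ ≤ S.card + S.card := Nat.add_le_add hih hih
      _ = (S ∪ S.image (fun D => D * P)).card := by
        rw [Finset.card_union_of_disjoint hdisj, hinj]
      _ ≤ _ := Finset.card_le_card hsub

end Pool.Agent.BR4.Blk75
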