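import Pool.Agent.SPM.Stmts2
import Pool.Agent.Helper64.Breadth.Defs

/-!
# MP_5de915_nt: the exceptional set of the count of breadth three, interface statements

The solutions used: `n + 2 b = (a (4 b - 1) - 1) X`, `X ≥ 3` odd, so `m = s D` with `D` a product of primes,
`s = 1` for odd `n` and `s = 2` for even `n` (then `b` is odd if `4 ∣ n`, even if `n ≡ 2 (mod 4)`).
-/

set_option autoImplicit false

namespace Pool.Agent.BR4

open Pool.Agent.Helper64.Breadth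

/-- the three types: `s` the even part of the modulus, `β` the parity of `b` (used for `s = 2`) -/
def Ty (s β n : ℕ) : Prop :=
  (s = 1 ∧ n % 2 = 1) ∨ (s = 2 ∧ β = 1 ∧ n % 4 = 0) ∨ (s = 2 ∧ β = 0 ∧ n % 4 = 2)

/-- the admissible `b ≤ M` -/
def TT (s β M : ℕ) : Finset ℕ := (Finset.Icc 1 M).filter (fun b => s = 1 ∨ b % 2 = β)

/-- the primes `p ≤ x` that hit `n` for `b` -/
def HH (s b n x : ℕ) : Finset ℕ :=
  (Finset.Icc 1 x).filter (fun p => p.Prime ∧ 4 * b - 1 ∣ s * p + 1 ∧ p ∣ n + 2 * b)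

/-- row REC: primes in the class with `4 b - 1 ∣ s p + 1` -/
def Rec : Prop := ∀ s b : ℕ, (s = 1 ∨ s = 2) → 1 ≤ b → ∃ C : ℝ, ∀ z : ℕ, 3 ≤ z →
  Real.log (Real.log z) / (4 * (4 * b - 1).totient) - C ≤
    ∑ q ∈ (Finset.Icc 1 z).filter (fun q => q.Prime ∧ 4 * b - 1 ∣ s * q + 1), (1 : ℝ) / q

/-- row SV: the sieve -/
def Sv : Prop := ∀ A s β : ℕ, (s = 1 ∨ s = 2) → (β = 0 ∨ β = 1) → ∃ M : ℕ, ∃ d B : ℝ, 0 < d ∧ ∀ x : ℕ, 2 ≤ x →
  (((Finset.Icc 1 x).filter (fun n => ∀ b ∈ TT s β M, ((HH s b n x).card : ℝ) < d * Real.log (Real.log x))).card : ℝ)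
    ≤ B * x / Real.log x ^ A

/-- row SV from the rows on the primes and the sieve of SPM -/
def SvRow : Prop := Rec → Pool.Agent.SPM.R2b → Sv

/-- row BLK: many products in the class -/
def Blk : Prop := ∀ (m s t : ℕ) (Q : Finset ℕ), 1 ≤ m → (s = 1 ∨ s = 2) → (∀ q ∈ Q, q.Prime ∧ m ∣ s * q + 1) →
  1 + m.totient * t ≤ Q.card → 2 ^ t ≤ ((∏ q ∈ Q, q).divisors.filter (fun D => m ∣ s * D + 1)).card

/-- row SOL: the divisors give elements of breadth three of row `n` -/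
def Sol : Prop := ∀ s β n b : ℕ, Ty s β n → 1 ≤ b → (s = 2 → b % 2 = β) → 1 ≤ n →
  ((n + 2 * b).divisors.filter (fun D => D % 2 = 1 ∧ 4 * b - 1 ∣ s * D + 1)).card ≤ c n + 1

/-- the main theorem -/
def Main : Prop := ∀ A : ℕ, ∃ d B : ℝ, 0 < d ∧ ∀ x : ℕ, 2 ≤ x →
  (((Finset.Icc 1 x).filter (fun n => (c n : ℝ) < Real.log x ^ d)).card : ℝ) ≤ B * x / Real.log x ^ A

/-- row ASM -/
def Asm : Prop := Sv → Blk → Sol → Main

end Pool.Agent.BR4
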