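import Pool.Agent.SPM.RecAP92
import Pool.Agent.BR4.Stmts

/-!
# Reciprocals of the primes `p` with `4 b - 1 ∣ s p + 1`, `s = 1, 2` (helper64)
-/

set_option autoImplicit false

namespace Pool.Agent.BR4.Rec64

open Finset

/-- the residue class -/
lemma unit_class {b s : ℕ} (hb : 1 ≤ b) (hs : s = 1 ∨ s = 2) :
    ∃ a : ZMod (4 * b - 1), IsUnit a ∧ ∀ p : ℕ, (4 * b - 1) ∣ s * p + 1 ↔ (p : ZMod (4 * b - 1)) = a := by
  have h4 : (4 * (b : ZMod (4 * b - 1))) = 1 := by
    have h1 : ((4 * b - 1 : ℕ) : ZMod (4 * b - 1)) = 0 := ZMod.natCast_self _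
    rw [Nat.cast_sub (by omega)] at h1
    push_cast at h1
    linear_combination h1
  rcases hs with rfl | rfl
  · refine ⟨-1, isUnit_one.neg, fun p => ?_⟩
    rw [← ZMod.natCast_eq_zero_iff]
    push_cast
    constructor
    · intro h; linear_combination h
    · intro h; rw [h]; ring
  · refine ⟨-(2 * b), ?_, fun p => ?_⟩
    · have : (-(2 * (b : ZMod (4 * b - 1)))) * (-2) = 1 := by linear_combination h4
      exact IsUnit.of_mul_eq_one _ this
    · rw [← ZMod.natCast_eq_zero_iff]
      push_cast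
      constructor
      · intro h
        have : (p : ZMod (4 * b - 1)) = -(2 * b) * 1 + 2 * b * (2 * p + 1) := by
          linear_combination (-(p : ZMod (4 * b - 1))) * h4
        rw [h] at this
        rw [this]; ring
      · intro h; rw [h]; linear_combination -h4

/-- row REC -/
theorem rec64 : Rec := by
  intro s b hs hb
  obtain ⟨a, ha, hiff⟩ := unit_class hb hs
  have hne : NeZero (4 * b - 1) := ⟨by omega⟩
  obtain ⟨C, hC⟩ := Pool.Agent.SPM.recAP (4 * b - 1) ha
  refine ⟨C, fun z hz => ?_⟩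
  have h1 := hC (z : ℝ) (by exact_mod_cast hz)
  rw [Nat.floor_natCast] at h1
  have h2 : (Icc 1 z).filter (fun p : ℕ => p.Prime ∧ (p : ZMod (4 * b - 1)) = a) =
      (Icc 1 z).filter (fun p : ℕ => p.Prime ∧ 4 * b - 1 ∣ s * p + 1) := by
    apply filter_congr
    intro p _
    rw [hiff p]
  rw [h2] at h1
  refine le_trans (le_of_eq ?_) h1
  ring

end Pool.Agent.BR4.Rec64
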