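import Pool.Agent.BR3.F75

/-!
# MP_5de915_nt: divisors in the class give elements of row `n` (`c = 1`)
-/

set_option autoImplicit false

namespace Pool.Agent.BR4.Sol75

open Finset
open Pool.Agent.Helper64.Breadth
open Pool.Agent.BR3.F75

lemma one (s b n D : ℕ) (hb : 1 ≤ b)
    (hs : (s = 1 ∧ n % 2 = 1) ∨ (s = 2 ∧ (n + 2 * b) % 4 = 2)) (hD : D ∣ n + 2 * b) (hD1 : D % 2 = 1)
    (hm : 4 * b - 1 ∣ s * D + 1) (hne : s * D ≠ n + 2 * b) :
    1 ≤ (s * D + 1) / (4 * b - 1) ∧ ((n + 2 * b) / (s * D)) % 2 = 1 ∧ 3 ≤ (n + 2 * b) / (s * D) ∧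
      (s * D + 1) / (4 * b - 1) * (4 * b - 1) = s * D + 1 ∧
      (n : ℤ) + 2 * b * ((1 : ℕ) : ℤ) = ((n + 2 * b) / (s * D) : ℕ) *
        (4 * ((s * D + 1) / (4 * b - 1) : ℕ) * b * ((1 : ℕ) : ℤ) - ((s * D + 1) / (4 * b - 1) : ℕ) - ((1 : ℕ) : ℤ)) := by
  have hsD : s * D ∣ n + 2 * b := by
    rcases hs with ⟨rfl, _⟩ | ⟨rfl, h4⟩
    · simpa using hD
    · have hc : Nat.Coprime 2 D := by
        rw [Nat.Prime.coprime_iff_not_dvd Nat.prime_two]
        omega
      exact hc.mul_dvd_of_dvd_of_dvd (by omega) hD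
  obtain ⟨u, hu⟩ := hsD
  obtain ⟨a, ha⟩ := hm
  have hD0 : 0 < D := by omega
  have hs0 : 0 < s := by rcases hs with ⟨rfl, _⟩ | ⟨rfl, _⟩ <;> omega
  have hsD0 : 0 < s * D := Nat.mul_pos hs0 hD0
  have hq0 : 0 < 4 * b - 1 := by omega
  have e1 : (n + 2 * b) / (s * D) = u := by rw [hu]; exact Nat.mul_div_cancel_left u hsD0
  have e2 : (s * D + 1) / (4 * b - 1) = a := by rw [ha]; exact Nat.mul_div_cancel_left a hq0
  rw [e1, e2]
  have ha1 : 1 ≤ a := by
    rcases Nat.eq_zero_or_pos a with h | h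
    · rw [h, mul_zero] at ha; omega
    · exact h
  have hu1 : u % 2 = 1 := by
    by_contra hcon
    obtain ⟨v, hv⟩ : ∃ v, u = 2 * v := ⟨u / 2, by omega⟩
    rcases hs with ⟨rfl, h2⟩ | ⟨rfl, h4⟩
    · have : n + 2 * b = 2 * (D * v) := by rw [hu, hv]; ring
      omega
    · have : n + 2 * b = 4 * (D * v) := by rw [hu, hv]; ring
      omega
  have hu3 : 3 ≤ u := by
    have h1 : u ≠ 1 := by
      intro h
      rw [h, mul_one] at hu
      exact hne hu.symm
    omega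
  refine ⟨ha1, hu1, hu3, by rw [ha, mul_comm], ?_⟩
  have h1 : ((n : ℤ) + 2 * b) = (s : ℤ) * D * u := by exact_mod_cast hu
  have h2 : ((s : ℤ) * D + 1) = (4 * (b : ℤ) - 1) * a := by
    have : ((4 * b - 1 : ℕ) : ℤ) = 4 * (b : ℤ) - 1 := by
      rw [Nat.cast_sub (by omega)]
      push_cast
      ring
    have h3 : ((s * D + 1 : ℕ) : ℤ) = ((4 * b - 1 : ℕ) : ℤ) * a := by rw [ha]; push_cast; ring
    rw [this] at h3
    push_cast at h3
    exact h3
  push_cast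
  have h3 : (s : ℤ) * D = (4 * (b : ℤ) - 1) * a - 1 := by linarith
  have h4 : (n : ℤ) + 2 * b = ((4 * (b : ℤ) - 1) * a - 1) * u := by rw [h1, h3]
  linear_combination h4

theorem sol (s b n : ℕ) (hb : 1 ≤ b)
    (hs : (s = 1 ∧ n % 2 = 1) ∨ (s = 2 ∧ (n + 2 * b) % 4 = 2)) :
    ((n + 2 * b).divisors.filter (fun D => D % 2 = 1 ∧ 4 * b - 1 ∣ s * D + 1)).card ≤ c n + 1 := by
  classical
  have hfin := finite_row n
  have e1 : c n = hfin.toFinset.card := by
    rw [c, ← Set.ncard_eq_toFinset_card _ hfin]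
    rfl
  rw [e1]
  set S := (n + 2 * b).divisors.filter (fun D => D % 2 = 1 ∧ 4 * b - 1 ∣ s * D + 1) with hS
  have hs0 : 0 < s := by rcases hs with ⟨rfl, _⟩ | ⟨rfl, _⟩ <;> omega
  have h1 : S.card ≤ (S.filter (fun D => s * D ≠ n + 2 * b)).card + 1 := by
    have h2 := Finset.card_filter_add_card_filter_not (s := S) (fun D => s * D ≠ n + 2 * b)
    have h3 : (S.filter (fun D => ¬ (s * D ≠ n + 2 * b))).card ≤ 1 := by
      rw [Finset.card_le_one]
      intro x hx y hy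
      rw [Finset.mem_filter, not_not] at hx hy
      exact Nat.eq_of_mul_eq_mul_left hs0 (hx.2.trans hy.2.symm)
    omega
  refine h1.trans (Nat.add_le_add_right ?_ 1)
  have key : ∀ D ∈ S.filter (fun D => s * D ≠ n + 2 * b),
      1 ≤ (s * D + 1) / (4 * b - 1) ∧ ((n + 2 * b) / (s * D)) % 2 = 1 ∧ 3 ≤ (n + 2 * b) / (s * D) ∧
      (s * D + 1) / (4 * b - 1) * (4 * b - 1) = s * D + 1 ∧
      (n : ℤ) + 2 * b * ((1 : ℕ) : ℤ) = ((n + 2 * b) / (s * D) : ℕ) *
        (4 * ((s * D + 1) / (4 * b - 1) : ℕ) * b * ((1 : ℕ) : ℤ) - ((s * D + 1) / (4 * b - 1) : ℕ) - ((1 : ℕ) : ℤ)) := by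
    intro D hD
    rw [Finset.mem_filter, hS, Finset.mem_filter, Nat.mem_divisors] at hD
    exact one s b n D hb hs hD.1.1.1 hD.1.2.1 hD.1.2.2 hD.2
  refine Finset.card_le_card_of_injOn
    (fun D => (n : ℤ) - (2 * ((s * D + 1) / (4 * b - 1) : ℕ) * b * (((n + 2 * b) / (s * D) : ℕ) : ℤ) - b -
      ((((n + 2 * b) / (s * D)) / 2 : ℕ) : ℤ) - 1)) ?_ ?_
  · intro D hD
    rw [Finset.mem_coe] at hD
    obtain ⟨g1, g2, g3, _, g5⟩ := key D hD
    rw [Finset.mem_coe, Set.Finite.mem_toFinset]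
    exact br_abc _ b 1 _ n g1 hb le_rfl g2 g3 g5
  · intro D hD E hE hij
    rw [Finset.mem_coe] at hD hE
    obtain ⟨g1, g2, g3, g4, g5⟩ := key D hD
    obtain ⟨g1', g2', g3', g4', g5'⟩ := key E hE
    simp only at hij
    generalize (s * D + 1) / (4 * b - 1) = a at *
    generalize (n + 2 * b) / (s * D) = u at *
    generalize (s * E + 1) / (4 * b - 1) = a' at *
    generalize (n + 2 * b) / (s * E) = u' at *
    have hh : ((u / 2 : ℕ) : ℤ) * 2 + 1 = u := by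
      have : u / 2 * 2 + 1 = u := by omega
      exact_mod_cast this
    have hh' : ((u' / 2 : ℕ) : ℤ) * 2 + 1 = u' := by
      have : u' / 2 * 2 + 1 = u' := by omega
      exact_mod_cast this
    obtain ⟨q1, _, _⟩ := uniq a b 1 u a' b 1 u' n
      (by exact_mod_cast g1) (by exact_mod_cast hb) (by exact_mod_cast g3)
      (by exact_mod_cast g1') (by exact_mod_cast hb) (by exact_mod_cast g3')
      (by exact_mod_cast g5) (by exact_mod_cast g5') (by linarith)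
    have q1' : a = a' := by exact_mod_cast q1
    rw [q1'] at g4
    have h5 : s * D + 1 = s * E + 1 := g4.symm.trans g4'
    exact Nat.eq_of_mul_eq_mul_left hs0 (by omega)

end Pool.Agent.BR4.Sol75
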