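import Pool.Agent.BR4.Stmts
import Pool.Agent.BR4.Blk75
import Pool.Agent.BR4.Sol75

/-!
# MP_5de915_nt: rows BLK and SOL in the form of the interface
-/

set_option autoImplicit false

namespace Pool.Agent.BR4.Rows75

theorem blk75 : Blk := fun m s t Q _ _ hQ hc => Blk75.blk m s t Q hQ hc

theorem sol75 : Sol := by
  intro s β n b hty hb hsb hn
  refine Sol75.sol s b n hb ?_
  rcases hty with ⟨h1, h2⟩ | ⟨h1, h2, h3⟩ | ⟨h1, h2, h3⟩
  · exact Or.inl ⟨h1, h2⟩
  · right
    have := hsb h1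
    exact ⟨h1, by omega⟩
  · right
    have := hsb h1
    exact ⟨h1, by omega⟩

end Pool.Agent.BR4.Rows75
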