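import Pool.Agent.BR4.Stmts
import Pool.Agent.BR3.F77

/-!
# Row SOL: the divisors give elements of breadth three of row `n`
-/

set_option autoImplicit false

namespace Pool.Agent.BR4.Sol46

open Finset Pool.Agent.Helper64.Breadth Pool.Agent.BR3.F77

theorem sol46 : Sol := by
  intro s β n b hty hb hβ hn
  classical
  have hfin := finite_row n
  have e1 : Pool.Agent.Helper64.Breadth.c n = hfin.toFinset.card := by
    rw [c, ← Set.ncard_eq_toFinset_card _ hfin]
    rfl
  set F := (n + 2 * b).divisors.filter (fun D => D % 2 = 1 ∧ 4 * b - 1 ∣ s * D + 1) with hF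
  have hs : s = 1 ∨ s = 2 := by
    rcases hty with ⟨h, -⟩ | ⟨h, -⟩ | ⟨h, -⟩
    · exact Or.inl h
    · exact Or.inr h
    · exact Or.inr h
  have key : ∀ D ∈ F.erase ((n + 2 * b) / s), ∃ a j : ℕ, 1 ≤ a ∧ 1 ≤ j ∧ a = (s * D + 1) / (4 * b - 1) ∧
      j = ((n + 2 * b) / (s * D)) / 2 ∧ s * D + 1 = (4 * b - 1) * a ∧
      (n : ℤ) = (4 * a * b * 1 - a - 1) * (2 * j + 1) - 2 * b * 1 := by
    intro D hD
    rw [mem_erase, hF, mem_filter, Nat.mem_divisors] at hD
    obtain ⟨hne, ⟨hdv, hN0⟩, hodd, h4⟩ := hD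
    have hD0 : 0 < D := by omega
    -- s D divides n + 2 b, odd quotient
    obtain ⟨X, hX1, hX2⟩ : ∃ X : ℕ, X % 2 = 1 ∧ n + 2 * b = s * D * X := by
      obtain ⟨q, hq⟩ := hdv
      rcases hty with ⟨rfl, hn2⟩ | ⟨rfl, rfl, hn4⟩ | ⟨rfl, rfl, hn4⟩
      · refine ⟨q, ?_, by rw [hq]; ring⟩
        have h1 : (D * q) % 2 = 1 := by rw [← hq]; omega
        rcases Nat.mod_two_eq_zero_or_one q with h2 | h2
        · rw [Nat.mul_mod, h2, Nat.mul_zero, Nat.zero_mod] at h1; exact absurd h1 (by decide)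
        · exact h2
      all_goals
        have hb2 := hβ rfl
        have h1 : (D * q) % 4 = 2 := by rw [← hq]; omega
        have h3 : (D * q) % 2 = 0 := by omega
        have h4' : q % 2 = 0 := by
          rcases Nat.mod_two_eq_zero_or_one q with h2 | h2
          · exact h2
          · rw [Nat.mul_mod, hodd, h2] at h3; exact absurd h3 (by decide)
        obtain ⟨X, rfl⟩ : ∃ X, q = 2 * X := ⟨q / 2, by omega⟩
        refine ⟨X, ?_, by rw [hq]; ring⟩
        have h5 : D * (2 * X) = 2 * (D * X) := by ring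
        rw [h5] at h1
        have h6 : (D * X) % 2 = 1 := by omega
        rcases Nat.mod_two_eq_zero_or_one X with h2 | h2
        · rw [Nat.mul_mod, h2, Nat.mul_zero, Nat.zero_mod] at h6; exact absurd h6 (by decide)
        · exact h2
    have hs0 : 0 < s := by omega
    have hsD : 0 < s * D := Nat.mul_pos hs0 hD0
    have hX3 : 3 ≤ X := by
      by_contra hlt
      have h1 : X = 1 := by omega
      rw [h1, Nat.mul_one] at hX2
      apply hne
      rw [hX2, Nat.mul_div_cancel_left _ hs0]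
    obtain ⟨a, ha⟩ := h4
    have h4b : 0 < 4 * b - 1 := by omega
    have ha1 : 1 ≤ a := by
      rcases Nat.eq_zero_or_pos a with h | h
      · rw [h, Nat.mul_zero] at ha
        omega
      · exact h
    refine ⟨a, X / 2, ha1, by omega, ?_, ?_, ha, ?_⟩
    · rw [ha, Nat.mul_div_cancel_left _ h4b]
    · rw [hX2, Nat.mul_div_cancel_left _ hsD]
    · have h9 : (2 * ((X / 2 : ℕ) : ℤ) + 1) = X := by omega
      rw [h9]
      have h10 : ((n : ℤ) + 2 * b) = (s : ℤ) * D * X := by exact_mod_cast hX2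
      have h11 : (s : ℤ) * D + 1 = (4 * (b : ℤ) - 1) * a := by
        have : ((s * D + 1 : ℕ) : ℤ) = (((4 * b - 1) * a : ℕ) : ℤ) := by rw [ha]
        push_cast [Nat.cast_sub (show 1 ≤ 4 * b by omega)] at this
        exact this
      have h12 : (s : ℤ) * D = (4 * (b : ℤ) - 1) * a - 1 := by linarith
      rw [h12] at h10
      linarith
  have h1 : (F.erase ((n + 2 * b) / s)).card ≤ Pool.Agent.Helper64.Breadth.c n := by
    rw [e1]
    refine Finset.card_le_card_of_injOn (fun D => (n : ℤ) - ((b : ℤ) * (2 * (((s * D + 1) / (4 * b - 1) : ℕ) : ℤ) *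
      (2 * ((((n + 2 * b) / (s * D)) / 2 : ℕ) : ℤ) + 1) - 1) -
        ((((n + 2 * b) / (s * D)) / 2 : ℕ) : ℤ) - 1)) ?_ ?_
    · intro D hD
      obtain ⟨a, j, ha, hj, ha', hj', -, hn'⟩ := key D hD
      rw [Finset.mem_coe, Set.Finite.mem_toFinset]
      dsimp only
      rw [← ha', ← hj']
      exact br a b 1 j ha hb le_rfl hj n (by push_cast; exact hn')
    · intro D hD D' hD' h
      obtain ⟨a, j, ha, hj, ha', hj', hq, hn'⟩ := key D hD
      obtain ⟨k, l, ka, kj, ka', kj', kq, kn'⟩ := key D' hD'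
      dsimp only at h
      rw [← ha', ← hj', ← ka', ← kj'] at h
      obtain ⟨r1, -, -⟩ := inj (a := a) (b := b) (c := 1) (j := j) (a' := k) (b' := b) (c' := 1) (j' := l)
        (by exact_mod_cast ha) (by exact_mod_cast hb) (by exact_mod_cast hj)
        (by exact_mod_cast ka) (by exact_mod_cast hb) (by exact_mod_cast kj) hn' kn' h
      have r1' : a = k := by exact_mod_cast r1
      rw [← r1'] at kq
      have hs0 : 0 < s := by omega
      have h5 : s * D = s * D' := by omega
      exact Nat.eq_of_mul_eq_mul_left hs0 h5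
  have h2 := Finset.pred_card_le_card_erase (s := F) (a := (n + 2 * b) / s)
  omega

end Pool.Agent.BR4.Sol46
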