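import Pool.Agent.BR4.Stmts
import Pool.Agent.BR3.F77

/-!
# Row SOL: the divisors give elements of breadth three of row `n`
-/

set_option autoImplicit false

namespace Pool.Agent.BR4.Sol77

open Pool.Agent.Helper64.Breadth

/-- the odd quotient -/
theorem quot {s β n b D : ℕ} (hty : Ty s β n) (hβ : s = 2 → b % 2 = β) (hD : D ∣ n + 2 * b) (hodd : D % 2 = 1) :
    ∃ X : ℕ, X % 2 = 1 ∧ n + 2 * b = s * D * X := by
  obtain ⟨q, hq⟩ := hD
  rcases hty with ⟨rfl, hn⟩ | ⟨rfl, rfl, hn⟩ | ⟨rfl, rfl, hn⟩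
  · refine ⟨q, ?_, by rw [hq]; ring⟩
    have h3 : (D * q) % 2 = 1 := by rw [← hq]; omega
    rcases Nat.mod_two_eq_zero_or_one q with h4 | h4
    · rw [Nat.mul_mod, h4, Nat.mul_zero, Nat.zero_mod] at h3; exact absurd h3 (by decide)
    · exact h4
  all_goals
    have hb := hβ rfl
    have hq2 : q % 2 = 0 := by
      have h3 : (D * q) % 2 = 0 := by rw [← hq]; omega
      rcases Nat.mod_two_eq_zero_or_one q with h4 | h4
      · exact h4
      · rw [Nat.mul_mod, hodd, h4] at h3; exact absurd h3 (by decide)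
    obtain ⟨X, rfl⟩ : ∃ X, q = 2 * X := ⟨q / 2, by omega⟩
    refine ⟨X, ?_, by rw [hq]; ring⟩
    have h5 : n + 2 * b = 2 * (D * X) := by rw [hq]; ring
    have h6 : (D * X) % 2 = 1 := by omega
    rcases Nat.mod_two_eq_zero_or_one X with h4 | h4
    · rw [Nat.mul_mod, h4, Nat.mul_zero, Nat.zero_mod] at h6; exact absurd h6 (by decide)
    · exact h4

theorem fact {s β n b D : ℕ} (hty : Ty s β n) (hb : 1 ≤ b) (hβ : s = 2 → b % 2 = β) (hn : 1 ≤ n)
    (hD : D ∣ n + 2 * b) (hodd : D % 2 = 1) (h : 4 * b - 1 ∣ s * D + 1) (hne : D ≠ (n + 2 * b) / s) :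
    1 ≤ (s * D + 1) / (4 * b - 1) ∧ s * D + 1 = (s * D + 1) / (4 * b - 1) * (4 * b - 1) ∧
      1 ≤ (n + 2 * b) / (s * D) / 2 ∧
      (n : ℤ) = (4 * (((s * D + 1) / (4 * b - 1) : ℕ) : ℤ) * b * ((1 : ℕ) : ℤ) - (((s * D + 1) / (4 * b - 1) : ℕ) : ℤ)
        - ((1 : ℕ) : ℤ)) * (2 * (((n + 2 * b) / (s * D) / 2 : ℕ) : ℤ) + 1) - 2 * b * ((1 : ℕ) : ℤ) := by
  have hs : 0 < s := by rcases hty with ⟨rfl, -⟩ | ⟨rfl, -⟩ | ⟨rfl, -⟩ <;> norm_num
  have hD0 : 0 < D := by omega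
  have hsD : 0 < s * D := Nat.mul_pos hs hD0
  obtain ⟨X, hX1, hX2⟩ := quot hty hβ hD hodd
  have e1 : s * D + 1 = (s * D + 1) / (4 * b - 1) * (4 * b - 1) := (Nat.div_mul_cancel h).symm
  have e2 : (n + 2 * b) / (s * D) = X := by rw [hX2, Nat.mul_div_cancel_left _ hsD]
  have ha : 1 ≤ (s * D + 1) / (4 * b - 1) := by
    rcases Nat.eq_zero_or_pos ((s * D + 1) / (4 * b - 1)) with h0 | h0
    · rw [h0] at e1; omega
    · exact h0
  have hX3 : X ≠ 1 := by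
    rintro rfl
    apply hne
    rw [hX2, Nat.mul_one, Nat.mul_div_cancel_left _ hs]
  refine ⟨ha, e1, by rw [e2]; omega, ?_⟩
  rw [e2]
  generalize (s * D + 1) / (4 * b - 1) = a at *
  have h9 : (2 * ((X / 2 : ℕ) : ℤ) + 1) = X := by omega
  rw [h9]
  have c1 : (s : ℤ) * D + 1 = a * (4 * b - 1) := by
    have : ((s * D + 1 : ℕ) : ℤ) = ((a * (4 * b - 1) : ℕ) : ℤ) := by rw [← e1]
    rw [Nat.cast_mul, Nat.cast_sub (by omega)] at this
    push_cast at this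
    exact this
  have c2 : (n : ℤ) + 2 * b = s * D * X := by exact_mod_cast hX2
  push_cast
  linear_combination c2 + (X : ℤ) * c1

theorem sol77 : Sol := by
  intro s β n b hty hb hβ hn
  have hfin := finite_row n
  have e1 : c n = hfin.toFinset.card := by
    rw [c, ← Set.ncard_eq_toFinset_card _ hfin]
    rfl
  have hs : 0 < s := by rcases hty with ⟨rfl, -⟩ | ⟨rfl, -⟩ | ⟨rfl, -⟩ <;> norm_num
  set F := (n + 2 * b).divisors.filter (fun D => D % 2 = 1 ∧ 4 * b - 1 ∣ s * D + 1) with hF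
  have h1 : (F.erase ((n + 2 * b) / s)).card ≤ c n := by
    rw [e1]
    refine Finset.card_le_card_of_injOn (fun D => (n : ℤ) - ((b : ℤ) * (2 * (((s * D + 1) / (4 * b - 1) : ℕ) : ℤ) *
      (2 * (((n + 2 * b) / (s * D) / 2 : ℕ) : ℤ) + 1) - 1) - (((n + 2 * b) / (s * D) / 2 : ℕ) : ℤ) - 1)) ?_ ?_
    · intro D hD
      rw [Finset.mem_coe, Finset.mem_erase, hF, Finset.mem_filter, Nat.mem_divisors] at hD
      obtain ⟨k1, ⟨k2, -⟩, k3, k4⟩ := hD
      obtain ⟨f1, f2, f3, f4⟩ := fact hty hb hβ hn k2 k3 k4 k1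
      rw [Finset.mem_coe, Set.Finite.mem_toFinset]
      exact Pool.Agent.BR3.F77.br _ _ 1 _ f1 hb le_rfl f3 n f4
    · intro D hD D' hD' h
      rw [Finset.mem_coe, Finset.mem_erase, hF, Finset.mem_filter, Nat.mem_divisors] at hD hD'
      obtain ⟨k1, ⟨k2, -⟩, k3, k4⟩ := hD
      obtain ⟨l1, ⟨l2, -⟩, l3, l4⟩ := hD'
      obtain ⟨f1, f2, f3, f4⟩ := fact hty hb hβ hn k2 k3 k4 k1
      obtain ⟨g1, g2, g3, g4⟩ := fact hty hb hβ hn l2 l3 l4 l1
      dsimp only at h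
      obtain ⟨r1, -, -⟩ := Pool.Agent.BR3.F77.inj (by exact_mod_cast f1) (by exact_mod_cast hb) (by exact_mod_cast f3)
        (by exact_mod_cast g1) (by exact_mod_cast hb) (by exact_mod_cast g3) f4 g4 h
      have r2 : (s * D + 1) / (4 * b - 1) = (s * D' + 1) / (4 * b - 1) := by exact_mod_cast r1
      have r3 : s * D + 1 = s * D' + 1 := by rw [f2, g2, r2]
      exact Nat.eq_of_mul_eq_mul_left hs (by omega)
  have h2 := Finset.pred_card_le_card_erase (s := F) (a := (n + 2 * b) / s)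
  omega

end Pool.Agent.BR4.Sol77
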