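import Pool.Agent.BR4.Stmts
import Pool.Agent.SPM.Asm92d
import Pool.Agent.SPM.Exc92

/-!
# MP_5de915_nt: row SV, the sieve for the hits (adapted from helper92's assembly of MP_7a4c99_nt)
-/

set_option autoImplicit false

namespace Pool.Agent.BR4.Sv34

open Finset Pool.Agent.SPM Pool.Agent.BR4

/-- the bound for general classes -/
theorem boundG (h2 : R2b) (P : Finset ℕ) (F : ℕ → Finset ℕ) {M a : ℕ} (hM2 : 2 ≤ M) {K' v : ℝ} {x J : ℕ}
    (hv : 2 ≤ v) (hPF : ∀ q ∈ P, q.Prime ∧ (∀ r ∈ F q, r < q) ∧ ((F q).card : ℝ) ≤ 1 / M * q)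
    (hE1 : ∑ q ∈ P, ((F q).card : ℝ) / q ≤ M * (1 + v))
    (hE2 : 4 * (a : ℝ) * Real.log (v / 2) - K' ≤ ∑ q ∈ P, ((F q).card : ℝ) / q)
    (hS : ∑ q ∈ P, ((F q).card : ℝ) ≤ M * Real.exp v)
    (hJv : (J : ℝ) * ((M + 1) * v) ≤ Real.log x / 8)
    (hvx : 34 * M * (M + 1) * v ^ 2 ≤ Real.log x / 8) :
    (((Icc 1 x).filter (fun k => (P.filter (fun q => k % q ∈ F q)).card ≤ J)).card : ℝ) ≤
      x * (6 ^ J * (Real.exp (K' / 2) * (2 / v) ^ (2 * a) + Real.exp (-v))) +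
        3 * Real.exp (Real.log x / 2) := by
  have hM1 : (2 : ℝ) ≤ M := by exact_mod_cast hM2
  obtain ⟨E, hEdef⟩ : ∃ E : ℝ, E = ∑ q ∈ P, ((F q).card : ℝ) / q := ⟨_, rfl⟩
  obtain ⟨S, hSdef⟩ : ∃ S : ℝ, S = ∑ q ∈ P, ((F q).card : ℝ) := ⟨_, rfl⟩
  have hE0 : 0 ≤ E := by rw [hEdef]; exact sum_nonneg fun q _ => by positivity
  have hS0 : 0 ≤ S := by rw [hSdef]; exact sum_nonneg fun q _ => by positivity
  rw [← hEdef] at hE1 hE2
  rw [← hSdef] at hS
  have hv2 : (1 : ℝ) ≤ v / 2 := by linarith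
  have hexpE : Real.exp (-E / 2) ≤ Real.exp (K' / 2) * (2 / v) ^ (2 * a) := by
    have h3 : Real.exp (-E / 2) ≤ Real.exp (K' / 2 - 2 * (a : ℝ) * Real.log (v / 2)) := by
      apply Real.exp_le_exp.2
      linarith
    refine h3.trans (le_of_eq ?_)
    rw [sub_eq_add_neg, Real.exp_add]
    congr 1
    have h4 : Real.exp (2 * (a : ℝ) * Real.log (v / 2)) = (v / 2) ^ (2 * a) := by
      have h5 : 2 * (a : ℝ) * Real.log (v / 2) = ((2 * a : ℕ) : ℝ) * Real.log (v / 2) := by push_cast; ring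
      rw [h5, ← Real.log_pow, Real.exp_log (by positivity)]
    rw [Real.exp_neg, h4, ← inv_pow, inv_div]
  obtain ⟨t, ht⟩ : ∃ t : ℕ, t = ⌈8 * (M : ℝ) * (1 + v)⌉₊ := ⟨_, rfl⟩
  have ht1 : 8 * (M : ℝ) * (1 + v) ≤ t := by rw [ht]; exact Nat.le_ceil _
  have ht2 : (t : ℝ) < 8 * (M : ℝ) * (1 + v) + 1 := by rw [ht]; exact Nat.ceil_lt_add_one (by positivity)
  have htv : v ≤ t := by nlinarith
  have h8E : 8 * E ≤ t := by linarith
  have heps : E ^ (2 * t + 1) / (2 * t + 1).factorial ≤ Real.exp (-(3 * t)) := fin3 hE0 h8E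
  have heps0 : 0 ≤ E ^ (2 * t + 1) / (2 * t + 1).factorial := by positivity
  have heps1 : E ^ (2 * t + 1) / (2 * t + 1).factorial ≤ 1 := by
    refine heps.trans ?_
    rw [Real.exp_le_one_iff]
    have : (0 : ℝ) ≤ t := Nat.cast_nonneg _
    linarith
  have hS1 : 1 + S ≤ Real.exp (M + v) := by
    have h5 : (M : ℝ) + 1 ≤ Real.exp M := Real.add_one_le_exp _
    have h6 : (1 : ℝ) ≤ Real.exp v := Real.one_le_exp (by linarith)
    have h8 : ((M : ℝ) + 1) * Real.exp v ≤ Real.exp M * Real.exp v := by gcongr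
    rw [Real.exp_add]
    linarith
  have hMv : (M : ℝ) + v ≤ (M + 1) * v := by nlinarith
  have hpowJ : (1 + S) ^ J ≤ Real.exp (Real.log x / 8) := by
    calc (1 + S) ^ J ≤ (Real.exp (M + v)) ^ J := pow_le_pow_left₀ (by linarith) hS1 _
      _ = Real.exp (J * (M + v)) := by rw [← Real.exp_nat_mul]
      _ ≤ Real.exp (Real.log x / 8) := by
          apply Real.exp_le_exp.2
          refine le_trans ?_ hJv
          gcongr
  have hthird : (1 + S) ^ (2 * t) ≤ Real.exp (Real.log x / 8) := by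
    calc (1 + S) ^ (2 * t) ≤ (Real.exp (M + v)) ^ (2 * t) := pow_le_pow_left₀ (by linarith) hS1 _
      _ = Real.exp ((2 * t : ℕ) * (M + v)) := by rw [← Real.exp_nat_mul]
      _ ≤ Real.exp (Real.log x / 8) := by
          apply Real.exp_le_exp.2
          refine le_trans ?_ hvx
          push_cast
          have h5 : (t : ℝ) ≤ 13 * M * v := by nlinarith
          have h7 : 0 ≤ (t : ℝ) := Nat.cast_nonneg _
          have h8 : (0 : ℝ) ≤ (M + 1) * v := by positivity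
          calc 2 * (t : ℝ) * (M + v) ≤ 2 * (13 * M * v) * ((M + 1) * v) := by gcongr
            _ ≤ 34 * M * (M + 1) * v ^ 2 := by
              have : (0 : ℝ) ≤ M * (M + 1) * v ^ 2 := by positivity
              nlinarith
  have hR := h2 P F x t J (1 / M) (by positivity) hPF
  rw [← hEdef, ← hSdef] at hR
  have hx0 : (0 : ℝ) ≤ x := Nat.cast_nonneg _
  refine hR.trans ?_
  have hL0 : 0 ≤ Real.log x := by
    have : (0 : ℝ) ≤ 34 * M * (M + 1) * v ^ 2 := by positivity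
    linarith
  have hg : (J : ℝ) * (1 / M) ≤ J := by
    have h6 : (1 : ℝ) / M ≤ 1 := by
      rw [div_le_one (by linarith)]
      linarith
    calc (J : ℝ) * (1 / M) ≤ J * 1 := mul_le_mul_of_nonneg_left h6 (Nat.cast_nonneg _)
      _ = J := mul_one _
  have hW0 : 0 ≤ Real.exp (K' / 2) * (2 / v) ^ (2 * a) := by
    have : 0 < v := by linarith
    positivity
  have hmain := fin2 hg hexpE heps h8E hE0 htv hW0
  have hlast := fin1 hpowJ hthird heps1 hL0 heps0 (pow_nonneg (by linarith) _)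
  exact add_le_add (mul_le_mul_of_nonneg_left hmain hx0) hlast

/-- the classes of the hits -/
def Fs (s : ℕ) (T : Finset ℕ) (q : ℕ) : Finset ℕ :=
  (T.filter (fun b => 4 * b - 1 ∣ s * q + 1)).image fun b : ℕ => (-((2 * b : ℕ) : ZMod q)).val

theorem Fs_lt {s : ℕ} {T : Finset ℕ} {q : ℕ} (hq : q.Prime) : ∀ r ∈ Fs s T q, r < q := by
  have := Fact.mk hq
  intro r hr
  obtain ⟨m, -, rfl⟩ := mem_image.1 hr
  exact ZMod.val_lt _

theorem Fs_card {s : ℕ} {T : Finset ℕ} {M q : ℕ} (hM2 : 2 ≤ M) (hT : T ⊆ Icc 1 M) (hq : q.Prime) (hM : M ^ 2 < q) :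
    (Fs s T q).card = (T.filter (fun b => 4 * b - 1 ∣ s * q + 1)).card := by
  have := Fact.mk hq
  apply card_image_of_injOn
  intro m hm m' hm' he
  have h1 := mem_Icc.1 (hT (mem_filter.1 hm).1)
  have h1' := mem_Icc.1 (hT (mem_filter.1 hm').1)
  have h3 := ZMod.val_injective q he
  have h6 : ((2 * m : ℕ) : ZMod q) = ((2 * m' : ℕ) : ZMod q) := neg_injective h3
  have h7 : 2 * m < q := by nlinarith
  have h8 : 2 * m' < q := by nlinarith
  rw [ZMod.natCast_eq_natCast_iff'] at h6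
  rw [Nat.mod_eq_of_lt h7, Nat.mod_eq_of_lt h8] at h6
  omega

theorem of_mem_Fs {s : ℕ} {T : Finset ℕ} {q n : ℕ} (hq : q.Prime)
    (h : n % q ∈ Fs s T q) : ∃ b ∈ T, 4 * b - 1 ∣ s * q + 1 ∧ q ∣ n + 2 * b := by
  have := Fact.mk hq
  obtain ⟨m, hm, he⟩ := mem_image.1 h
  have h0 := mem_filter.1 hm
  refine ⟨m, h0.1, h0.2, ?_⟩
  have h3 : (n : ZMod q) = -((2 * m : ℕ) : ZMod q) := by
    have h4 : ((n % q : ℕ) : ZMod q) = (n : ZMod q) := ZMod.natCast_mod n q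
    rw [← h4, ← he, ZMod.natCast_zmod_val]
  rw [← ZMod.natCast_eq_zero_iff, Nat.cast_add, h3]
  ring

theorem Fs_le {s : ℕ} {T : Finset ℕ} {M : ℕ} (hT : T ⊆ Icc 1 M) (q : ℕ) : (Fs s T q).card ≤ M := by
  refine card_image_le.trans ((card_le_card (filter_subset (fun b => 4 * b - 1 ∣ s * q + 1) T)).trans ?_)
  have := card_le_card hT
  rw [Nat.card_Icc] at this
  omega

theorem Es_le {s : ℕ} {T : Finset ℕ} {M z : ℕ} (hT : T ⊆ Icc 1 M) :
    ∑ q ∈ Pz M z, ((Fs s T q).card : ℝ) / q ≤ M * (1 + Real.log z) := by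
  have h1 : ∑ q ∈ Pz M z, ((Fs s T q).card : ℝ) / q ≤ ∑ q ∈ Icc 1 z, (M : ℝ) * (1 / q) := by
    refine le_trans (sum_le_sum (f := fun q => ((Fs s T q).card : ℝ) / q) (g := fun q => (M : ℝ) * (1 / q)) ?_)
      (sum_le_sum_of_subset_of_nonneg (filter_subset _ _) fun q _ _ => by positivity)
    intro q _
    rw [mul_one_div]
    gcongr
    exact_mod_cast Fs_le hT q
  rw [← mul_sum, sum_inv_Icc] at h1
  refine h1.trans ?_
  gcongr
  exact_mod_cast harmonic_le_one_add_log z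

theorem Ss_le {s : ℕ} {T : Finset ℕ} {M z : ℕ} (hT : T ⊆ Icc 1 M) :
    ∑ q ∈ Pz M z, ((Fs s T q).card : ℝ) ≤ M * z := by
  calc ∑ q ∈ Pz M z, ((Fs s T q).card : ℝ) ≤ ∑ _q ∈ Pz M z, (M : ℝ) := by
        apply sum_le_sum
        intro q _
        exact_mod_cast Fs_le hT q
    _ = (Pz M z).card * (M : ℝ) := by simp
    _ ≤ z * M := by
        gcongr
        have h1 := card_le_card (filter_subset (fun q => q.Prime ∧ M ^ 2 < q) (Icc 1 z))
        rw [Nat.card_Icc] at h1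
        unfold Pz
        omega
    _ = M * z := by ring

/-- the lower bound of the sum -/
theorem Es_ge {s M : ℕ} (hM2 : 2 ≤ M) (c : ℕ → ℝ) (hc : ∀ b : ℕ, 1 ≤ b → ∀ z : ℕ, 3 ≤ z →
    Real.log (Real.log z) / (4 * (4 * b - 1).totient) - c b ≤
      ∑ q ∈ (Icc 1 z).filter (fun q => q.Prime ∧ 4 * b - 1 ∣ s * q + 1), (1 : ℝ) / q) {T : Finset ℕ}
    (hT : T ⊆ Icc 1 M) {z : ℕ} (hz : 3 ≤ z) :
    Real.log (Real.log z) * (∑ b ∈ T, 1 / (4 * ((4 * b - 1).totient : ℝ))) - ∑ b ∈ Icc 1 M, (|c b| + (M : ℝ) ^ 2) ≤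
      ∑ q ∈ Pz M z, ((Fs s T q).card : ℝ) / q := by
  have h1 : ∑ q ∈ Pz M z, ((Fs s T q).card : ℝ) / q =
      ∑ b ∈ T, ∑ q ∈ (Pz M z).filter (fun q => 4 * b - 1 ∣ s * q + 1), (1 : ℝ) / q := by
    have h2 : ∀ q ∈ Pz M z, ((Fs s T q).card : ℝ) / q =
        ∑ b ∈ T, if 4 * b - 1 ∣ s * q + 1 then (1 : ℝ) / q else 0 := by
      intro q hq
      obtain ⟨h3, h4, -⟩ := mem_Pz.1 hq
      rw [Fs_card hM2 hT h3 h4, ← sum_filter, sum_const, nsmul_eq_mul, mul_one_div]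
    rw [sum_congr rfl h2, sum_comm]
    apply sum_congr rfl
    intro m _
    rw [sum_filter]
  have h2 : ∀ b ∈ T, Real.log (Real.log z) * (1 / (4 * ((4 * b - 1).totient : ℝ))) - (|c b| + (M : ℝ) ^ 2) ≤
      ∑ q ∈ (Pz M z).filter (fun q => 4 * b - 1 ∣ s * q + 1), (1 : ℝ) / q := by
    intro m hm
    have h3 := mem_Icc.1 (hT hm)
    have h4 := hc m (by omega) z hz
    have h5 : ∑ q ∈ (Icc 1 z).filter (fun q => q.Prime ∧ 4 * m - 1 ∣ s * q + 1), (1 : ℝ) / q ≤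
        ∑ q ∈ (Pz M z).filter (fun q => 4 * m - 1 ∣ s * q + 1), (1 : ℝ) / q +
          ∑ q ∈ Icc 1 (M ^ 2), (1 : ℝ) / q := by
      rw [← sum_filter_add_sum_filter_not ((Icc 1 z).filter (fun q => q.Prime ∧ 4 * m - 1 ∣ s * q + 1))
        (fun q => M ^ 2 < q)]
      apply add_le_add
      · apply sum_le_sum_of_subset_of_nonneg
        · intro q hq
          rw [mem_filter, mem_filter, mem_Icc] at hq
          rw [mem_filter, mem_Pz]
          exact ⟨⟨hq.1.2.1, hq.2, hq.1.1.2⟩, hq.1.2.2⟩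
        · intro q _ _
          positivity
      · apply sum_le_sum_of_subset_of_nonneg
        · intro q hq
          rw [mem_filter, mem_filter, mem_Icc] at hq
          rw [mem_Icc]
          exact ⟨hq.1.1.1, not_lt.1 hq.2⟩
        · intro q _ _
          positivity
    have h6 : ∑ q ∈ Icc 1 (M ^ 2), (1 : ℝ) / q ≤ (M : ℝ) ^ 2 := by
      calc ∑ q ∈ Icc 1 (M ^ 2), (1 : ℝ) / q ≤ ∑ _q ∈ Icc 1 (M ^ 2), (1 : ℝ) := by
            apply sum_le_sum
            intro q hq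
            have h7 := (mem_Icc.1 hq).1
            rw [div_le_one (by positivity)]
            exact_mod_cast h7
        _ = (M : ℝ) ^ 2 := by simp
    have h7 := le_abs_self (c m)
    have h8 : Real.log (Real.log z) * (1 / (4 * ((4 * m - 1).totient : ℝ))) =
        Real.log (Real.log z) / (4 * (4 * m - 1).totient) := by
      ring
    rw [h8]
    linarith
  rw [h1]
  have h3 := sum_le_sum h2
  rw [sum_sub_distrib, ← mul_sum] at h3
  have h4 : ∑ m ∈ T, (|c m| + (M : ℝ) ^ 2) ≤ ∑ m ∈ Icc 1 M, (|c m| + (M : ℝ) ^ 2) :=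
    sum_le_sum_of_subset_of_nonneg hT fun m _ _ => by positivity
  linarith

theorem TT_sub (s β M : ℕ) : TT s β M ⊆ Icc 1 M := filter_subset _ _

/-- the choice of `M` -/
theorem exM (s β : ℕ) (hβ : β = 0 ∨ β = 1) (K : ℝ) : ∃ M : ℕ, 2 ≤ M ∧
    K ≤ ∑ b ∈ TT s β M, 1 / (4 * ((4 * b - 1).totient : ℝ)) := by
  obtain ⟨M₀, hM₀⟩ := exists_nat_ge (Real.exp (32 * K))
  refine ⟨2 * (M₀ + 1), by omega, ?_⟩
  have h1 : 32 * K ≤ Real.log (((M₀ + 1) + 1 : ℕ) : ℝ) := by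
    rw [Real.le_log_iff_exp_le (by positivity)]
    refine hM₀.trans ?_
    exact_mod_cast (show M₀ ≤ (M₀ + 1) + 1 by omega)
  have h2 : Real.log (((M₀ + 1) + 1 : ℕ) : ℝ) ≤ ∑ m ∈ Icc 1 (M₀ + 1), (1 : ℝ) / m := by
    rw [sum_inv_Icc]
    exact log_add_one_le_harmonic (M₀ + 1)
  have h3 : (Icc 1 (M₀ + 1)).image (fun j => 2 * j - β) ⊆ TT s β (2 * (M₀ + 1)) := by
    intro b hb
    obtain ⟨j, hj, rfl⟩ := mem_image.1 hb
    have h4 := mem_Icc.1 hj
    unfold TT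
    rw [mem_filter, mem_Icc]
    rcases hβ with rfl | rfl
    · exact ⟨by omega, Or.inr (by omega)⟩
    · exact ⟨by omega, Or.inr (by omega)⟩
  have h4 : ∑ b ∈ (Icc 1 (M₀ + 1)).image (fun j => 2 * j - β), 1 / (4 * ((4 * b - 1).totient : ℝ)) ≤
      ∑ b ∈ TT s β (2 * (M₀ + 1)), 1 / (4 * ((4 * b - 1).totient : ℝ)) :=
    sum_le_sum_of_subset_of_nonneg h3 fun b _ _ => by positivity
  rw [sum_image (by
    intro i hi j hj he
    have h5 := mem_Icc.1 (mem_coe.1 hi)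
    have h6 := mem_Icc.1 (mem_coe.1 hj)
    dsimp only at he
    rcases hβ with rfl | rfl <;> omega)] at h4
  have h5 : (1 / 32) * ∑ m ∈ Icc 1 (M₀ + 1), (1 : ℝ) / m ≤
      ∑ j ∈ Icc 1 (M₀ + 1), 1 / (4 * ((4 * (2 * j - β) - 1).totient : ℝ)) := by
    rw [mul_sum]
    apply sum_le_sum
    intro j hj
    have h7 := (mem_Icc.1 hj).1
    have h8 : 0 < (4 * (2 * j - β) - 1).totient := Nat.totient_pos.2 (by rcases hβ with rfl | rfl <;> omega)
    have h9 : (4 * (2 * j - β) - 1).totient ≤ 8 * j := (Nat.totient_le _).trans (by omega)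
    have h10 : (0 : ℝ) < (4 * (2 * j - β) - 1).totient := by exact_mod_cast h8
    have h11 : ((4 * (2 * j - β) - 1).totient : ℝ) ≤ 8 * j := by exact_mod_cast h9
    have h12 : (1 : ℝ) / 32 * (1 / j) = 1 / (32 * j) := by rw [div_mul_div_comm, one_mul]
    rw [h12]
    apply one_div_le_one_div_of_le (by positivity)
    linarith
  linarith

/-- few hits for each `b`, so few exceptional primes -/
theorem few {s β M z n x t₁ : ℕ} (hz : z ≤ x) (h : ∀ b ∈ TT s β M, (HH s b n x).card ≤ t₁) :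
    ((Pz M z).filter (fun q => n % q ∈ Fs s (TT s β M) q)).card ≤ M * t₁ := by
  classical
  have hsub : (Pz M z).filter (fun q => n % q ∈ Fs s (TT s β M) q) ⊆
      (TT s β M).biUnion (fun b => HH s b n x) := by
    intro q hq
    rw [mem_filter] at hq
    obtain ⟨hq1, -, hq3⟩ := mem_Pz.1 hq.1
    obtain ⟨b, hb, h1, h2⟩ := of_mem_Fs hq1 hq.2
    rw [mem_biUnion]
    refine ⟨b, hb, ?_⟩
    unfold HH
    rw [mem_filter, mem_Icc]
    exact ⟨⟨hq1.one_le, hq3.trans hz⟩, hq1, h1, h2⟩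
  refine (card_le_card hsub).trans (card_biUnion_le.trans ((sum_le_sum h).trans ?_))
  rw [sum_const, smul_eq_mul]
  have h5 := card_le_card (TT_sub s β M)
  rw [Nat.card_Icc] at h5
  exact Nat.mul_le_mul_right _ (by omega)

/-- row SV -/
theorem sv34 : SvRow := by
  intro hrec h2 A s β hs hβ
  have hc0 : ∀ b : ℕ, ∃ c : ℝ, 1 ≤ b → ∀ z : ℕ, 3 ≤ z →
      Real.log (Real.log z) / (4 * (4 * b - 1).totient) - c ≤
      ∑ q ∈ (Icc 1 z).filter (fun q => q.Prime ∧ 4 * b - 1 ∣ s * q + 1), (1 : ℝ) / q := by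
    intro b
    by_cases hb : 1 ≤ b
    · obtain ⟨c, hc⟩ := hrec s b hs hb
      exact ⟨c, fun _ => hc⟩
    · exact ⟨0, fun h => absurd h hb⟩
  choose c hc using hc0
  obtain ⟨M, hM2, hKT⟩ := exM s β hβ (4 * ((A + 1 : ℕ) : ℝ))
  have hM1 : (2 : ℝ) ≤ M := by exact_mod_cast hM2
  have hTsub := TT_sub s β M
  obtain ⟨K', hK'⟩ : ∃ K' : ℝ, K' = ∑ b ∈ Icc 1 M, (|c b| + (M : ℝ) ^ 2) := ⟨_, rfl⟩
  obtain ⟨K, hK⟩ : ∃ K : ℝ, K = Real.exp (K' / 2) := ⟨_, rfl⟩
  have hK0 : 0 < K := by rw [hK]; exact Real.exp_pos _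
  obtain ⟨d, hd⟩ : ∃ d : ℝ, d = 1 / (100 * (M + 1) ^ 2) := ⟨_, rfl⟩
  have hd0 : 0 < d := by rw [hd]; positivity
  have hd1 : d * (M * (M + 1)) ≤ 1 / 8 := by
    rw [hd, div_mul_eq_mul_div, div_le_div_iff₀ (by positivity) (by norm_num)]
    nlinarith
  have hd2 : d ≤ 1 / 100 := by
    rw [hd]
    apply one_div_le_one_div_of_le (by norm_num)
    nlinarith
  obtain ⟨B1, hB1⟩ : ∃ B1 : ℝ, B1 = Real.exp (4 * M) * (K * (2 / d) ^ (2 * (A + 1))) := ⟨_, rfl⟩
  obtain ⟨B2, hB2⟩ : ∃ B2 : ℝ, B2 = Real.exp (4 * M) * ((2 * (A + 1)).factorial / d ^ (2 * (A + 1))) := ⟨_, rfl⟩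
  obtain ⟨B3, hB3⟩ : ∃ B3 : ℝ, B3 = 3 * (A.factorial * 2 ^ A) := ⟨_, rfl⟩
  obtain ⟨B4, hB4⟩ : ∃ B4 : ℝ, B4 = (2 / d) ^ (2 * A) := ⟨_, rfl⟩
  have p1 : 0 ≤ B1 := by rw [hB1]; positivity
  have p2 : 0 ≤ B2 := by rw [hB2]; positivity
  have p3 : 0 ≤ B3 := by rw [hB3]; positivity
  have p4 : 0 ≤ B4 := by rw [hB4]; positivity
  refine ⟨M, 1 / (2 * M), B1 + B2 + B3 + B4, by positivity, fun x hx => ?_⟩
  have hx0 : (0 : ℝ) < x := by exact_mod_cast (show 0 < x by omega)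
  have hL : 0 < Real.log x := Real.log_pos (by exact_mod_cast (show 1 < x by omega))
  obtain ⟨Lx, hLx⟩ : ∃ Lx : ℝ, Lx = Real.log x := ⟨_, rfl⟩
  rw [← hLx] at hL ⊢
  have hLA : 0 < Lx ^ A := by positivity
  obtain ⟨u, hu⟩ : ∃ u : ℝ, u = Real.sqrt Lx := ⟨_, rfl⟩
  have hsq : u ^ 2 = Lx := by rw [hu]; exact Real.sq_sqrt hL.le
  have hs0 : 0 < u := by rw [hu]; exact Real.sqrt_pos.2 hL
  rcases le_or_gt 2 (d * u) with hv | hv
  · -- large x
    have hu200 : 200 ≤ u := by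
      have : d * u ≤ 1 / 100 * u := by gcongr
      linarith
    have hL1 : 1 ≤ Lx := by nlinarith
    have hll0 : 0 ≤ Real.log Lx := Real.log_nonneg hL1
    have hll : Real.log Lx ≤ 2 * u := by
      rw [← hsq, Real.log_pow]
      have := Real.log_le_self hs0.le
      push_cast
      linarith
    obtain ⟨t₁, ht₁⟩ : ∃ t₁ : ℕ, t₁ = ⌈Real.log Lx / (2 * M)⌉₊ + 1 := ⟨_, rfl⟩
    have ht1 : Real.log Lx / (2 * M) ≤ (t₁ : ℝ) := by
      rw [ht₁]
      push_cast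
      have := Nat.le_ceil (Real.log Lx / (2 * M))
      linarith
    have ht2 : (t₁ : ℝ) ≤ Real.log Lx / (2 * M) + 2 := by
      have := Nat.ceil_lt_add_one (show 0 ≤ Real.log Lx / (2 * M) by positivity)
      rw [ht₁]
      push_cast
      linarith
    have ht4 : (t₁ : ℝ) * (d * u) ≤ d * Lx := by
      have h5 : Real.log Lx / (2 * M) ≤ u / 2 := by
        rw [div_le_div_iff₀ (by positivity) (by norm_num)]
        nlinarith
      have h6 : (t₁ : ℝ) ≤ u := by linarith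
      calc (t₁ : ℝ) * (d * u) ≤ u * (d * u) := by gcongr
        _ = d * Lx := by rw [← hsq]; ring
    have hvx : 34 * M * (M + 1) * (d * u) ^ 2 ≤ Real.log x / 8 := by
      rw [mul_pow, hsq, ← hLx]
      have h5 : 34 * (M : ℝ) * (M + 1) * (d ^ 2 * Lx) = 34 * (d * (M * (M + 1))) * d * Lx := by ring
      rw [h5]
      have h6 : 34 * (d * (M * (M + 1))) * d ≤ 1 / 8 := by
        have h7 : 34 * (d * (M * (M + 1))) * d ≤ 34 * (1 / 8) * (1 / 100) := by gcongr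
        linarith
      nlinarith
    have hJv : ((M * t₁ : ℕ) : ℝ) * ((M + 1) * (d * u)) ≤ Real.log x / 8 := by
      rw [← hLx]
      push_cast
      calc (M : ℝ) * t₁ * ((M + 1) * (d * u)) = (M * (M + 1)) * (t₁ * (d * u)) := by ring
        _ ≤ (M * (M + 1)) * (d * Lx) := by gcongr
        _ = (d * (M * (M + 1))) * Lx := by ring
        _ ≤ (1 / 8) * Lx := by gcongr
        _ = Lx / 8 := by ring
    -- the level
    obtain ⟨z, hz⟩ : ∃ z : ℕ, z = ⌊Real.exp (d * u)⌋₊ := ⟨_, rfl⟩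
    have hev : d * u + 1 ≤ Real.exp (d * u) := Real.add_one_le_exp _
    have hz3 : 3 ≤ z := by rw [hz]; exact Nat.le_floor (by push_cast; linarith)
    have hzle : (z : ℝ) ≤ Real.exp (d * u) := by rw [hz]; exact Nat.floor_le (Real.exp_pos _).le
    have hzge : Real.exp (d * u) < z + 1 := by rw [hz]; exact Nat.lt_floor_add_one _
    have hz0 : (0 : ℝ) < z := by exact_mod_cast (show 0 < z by omega)
    have hlz : Real.log z ≤ d * u := by
      rw [Real.log_le_iff_le_exp hz0]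
      exact hzle
    have hlz' : d * u / 2 ≤ Real.log z := by
      rw [Real.le_log_iff_exp_le hz0]
      have h3 : Real.exp (d * u) = Real.exp (d * u / 2) * Real.exp (d * u / 2) := by
        rw [← Real.exp_add]
        ring_nf
      have h4 : d * u / 2 + 1 ≤ Real.exp (d * u / 2) := Real.add_one_le_exp _
      nlinarith
    have hv2 : (1 : ℝ) ≤ d * u / 2 := by linarith
    have hllz : Real.log (d * u / 2) ≤ Real.log (Real.log z) := Real.log_le_log (by linarith) hlz'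
    have hllz0 : 0 ≤ Real.log (d * u / 2) := Real.log_nonneg hv2
    have hzx : z ≤ x := by
      have h3 : (z : ℝ) ≤ x := by
        refine hzle.trans ?_
        have h4 : d * u ≤ Lx := by
          have h5 : d * u ≤ 1 * u := mul_le_mul_of_nonneg_right (by linarith) hs0.le
          nlinarith
        have h5 := Real.exp_le_exp.2 h4
        rwa [hLx, Real.exp_log hx0] at h5
      exact_mod_cast h3
    have hPF : ∀ q ∈ Pz M z, q.Prime ∧ (∀ r ∈ Fs s (TT s β M) q, r < q) ∧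
        ((Fs s (TT s β M) q).card : ℝ) ≤ 1 / M * q := by
      intro q hq
      refine ⟨(mem_Pz.1 hq).1, Fs_lt (mem_Pz.1 hq).1, ?_⟩
      have h3 : ((Fs s (TT s β M) q).card : ℝ) ≤ M := by exact_mod_cast Fs_le hTsub q
      have h4 : (M : ℝ) ^ 2 ≤ q := by exact_mod_cast (mem_Pz.1 hq).2.1.le
      have h5 : (M : ℝ) ≤ 1 / M * q := by
        rw [one_div, ← div_eq_inv_mul, le_div_iff₀ (by linarith)]
        linarith
      linarith
    have hE1 : ∑ q ∈ Pz M z, ((Fs s (TT s β M) q).card : ℝ) / q ≤ M * (1 + d * u) := by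
      refine (Es_le hTsub).trans ?_
      gcongr
    have hS : ∑ q ∈ Pz M z, ((Fs s (TT s β M) q).card : ℝ) ≤ M * Real.exp (d * u) := by
      refine (Ss_le hTsub).trans ?_
      gcongr
    have hE2 : 4 * ((A + 1 : ℕ) : ℝ) * Real.log (d * u / 2) - K' ≤
        ∑ q ∈ Pz M z, ((Fs s (TT s β M) q).card : ℝ) / q := by
      have h3 := Es_ge (s := s) hM2 c (fun b hb => hc b hb) hTsub hz3
      rw [← hK'] at h3
      have h4 : 4 * ((A + 1 : ℕ) : ℝ) * Real.log (d * u / 2) ≤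
          Real.log (Real.log z) * ∑ b ∈ TT s β M, 1 / (4 * ((4 * b - 1).totient : ℝ)) := by
        calc 4 * ((A + 1 : ℕ) : ℝ) * Real.log (d * u / 2) ≤ 4 * ((A + 1 : ℕ) : ℝ) * Real.log (Real.log z) := by
              gcongr
          _ = Real.log (Real.log z) * (4 * ((A + 1 : ℕ) : ℝ)) := by ring
          _ ≤ Real.log (Real.log z) * ∑ b ∈ TT s β M, 1 / (4 * ((4 * b - 1).totient : ℝ)) := by
            apply mul_le_mul_of_nonneg_left hKT
            linarith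
      linarith
    have hb := boundG h2 (Pz M z) (Fs s (TT s β M)) (a := A + 1) hM2 hv hPF hE1 hE2 hS hJv hvx
    rw [← hK, ← hLx] at hb
    have hsub : (Icc 1 x).filter (fun n => ∀ b ∈ TT s β M, ((HH s b n x).card : ℝ) < 1 / (2 * M) * Real.log Lx) ⊆
        (Icc 1 x).filter (fun k => ((Pz M z).filter (fun q => k % q ∈ Fs s (TT s β M) q)).card ≤ M * t₁) := by
      intro n hn
      rw [mem_filter] at hn ⊢
      refine ⟨hn.1, few hzx ?_⟩
      intro b hb
      have h5 := hn.2 b hb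
      have h6 : 1 / (2 * (M : ℝ)) * Real.log Lx = Real.log Lx / (2 * M) := by ring
      rw [h6] at h5
      exact_mod_cast (h5.trans_le ht1).le
    have h5 : (((Icc 1 x).filter (fun n => ∀ b ∈ TT s β M,
        ((HH s b n x).card : ℝ) < 1 / (2 * M) * Real.log Lx)).card : ℝ) ≤
        (((Icc 1 x).filter (fun k => ((Pz M z).filter (fun q => k % q ∈ Fs s (TT s β M) q)).card ≤ M * t₁)).card : ℝ) := by
      exact_mod_cast card_le_card hsub
    obtain ⟨e5, e4⟩ := powers92 (A := A) (K := K) hM1 hd0 hs0 hL hsq hK0 hx0 ht2 hll0 (by rw [hLx, Real.exp_log hx0])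
    rw [← hB1, ← hB2] at e5
    have e7 : x * ((B1 + B2) / Lx ^ A) + 3 * (x * (A.factorial * 2 ^ A / Lx ^ A)) = (B1 + B2 + B3) * x / Lx ^ A := by
      rw [hB3]
      field_simp
    have e9 : (B1 + B2 + B3) * x / Lx ^ A ≤ (B1 + B2 + B3 + B4) * x / Lx ^ A :=
      div_le_div_of_nonneg_right (mul_le_mul_of_nonneg_right (by linarith) hx0.le) hLA.le
    have e10 : (x : ℝ) * ((6 : ℝ) ^ (M * t₁) * (K * (2 / (d * u)) ^ (2 * (A + 1)) + Real.exp (-(d * u)))) ≤
        x * ((B1 + B2) / Lx ^ A) := mul_le_mul_of_nonneg_left e5 hx0.le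
    linarith
  · -- small x
    have h5 : (((Icc 1 x).filter (fun n => ∀ b ∈ TT s β M,
        ((HH s b n x).card : ℝ) < 1 / (2 * M) * Real.log Lx)).card : ℝ) ≤ x := by
      have h6 : ((Icc 1 x).filter (fun n => ∀ b ∈ TT s β M,
          ((HH s b n x).card : ℝ) < 1 / (2 * M) * Real.log Lx)).card ≤ x := by
        refine (card_le_card (filter_subset _ _)).trans ?_
        rw [Nat.card_Icc]
        omega
      exact_mod_cast h6
    refine h5.trans ?_
    rw [le_div_iff₀ hLA]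
    have h6 : Lx ^ A ≤ B4 := by
      rw [hB4, ← hsq, ← pow_mul]
      have h7 : u ≤ 2 / d := by
        rw [le_div_iff₀ hd0]
        linarith
      exact pow_le_pow_left₀ hs0.le h7 _
    have h7 : Lx ^ A ≤ B1 + B2 + B3 + B4 := by linarith
    calc (x : ℝ) * Lx ^ A ≤ x * (B1 + B2 + B3 + B4) := by gcongr
      _ = (B1 + B2 + B3 + B4) * x := by ring

end Pool.Agent.BR4.Sv34
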