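import Pool.Agent.BR4.Sv92a

/-!
# MP_5de915_nt, row SV (helper92): the sieve
-/

set_option autoImplicit false

namespace Pool.Agent.BR4.Sv92

open Finset Pool.Agent.SPM

/-- the residues -/
def FF (s β M q : ℕ) : Finset ℕ :=
  ((TT s β M).filter (fun b => 4 * b - 1 ∣ s * q + 1)).image fun b : ℕ => (-(((2 * b : ℕ)) : ZMod q)).val

theorem mem_TT {s β M b : ℕ} (h : b ∈ TT s β M) : 1 ≤ b ∧ b ≤ M := by
  unfold TT at h
  rw [mem_filter, mem_Icc] at h
  exact h.1

theorem TT_card (s β M : ℕ) : (TT s β M).card ≤ M := by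
  refine (card_filter_le _ _).trans ?_
  rw [Nat.card_Icc]
  omega

theorem FF_lt {s β M q : ℕ} (hq : q.Prime) : ∀ r ∈ FF s β M q, r < q := by
  have := Fact.mk hq
  intro r hr
  obtain ⟨b, -, rfl⟩ := mem_image.1 hr
  exact ZMod.val_lt _

theorem FF_le (s β M q : ℕ) : (FF s β M q).card ≤ M :=
  card_image_le.trans ((card_filter_le _ _).trans (TT_card s β M))

theorem FF_card {s β M q : ℕ} (hM2 : 2 ≤ M) (hq : q.Prime) (hM : M ^ 2 < q) :
    (FF s β M q).card = ((TT s β M).filter (fun b => 4 * b - 1 ∣ s * q + 1)).card := by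
  have := Fact.mk hq
  apply card_image_of_injOn
  intro b hb b' hb' he
  have h1 := mem_TT (mem_filter.1 hb).1
  have h1' := mem_TT (mem_filter.1 hb').1
  have h3 := ZMod.val_injective q he
  have h4 : (((2 * b : ℕ)) : ZMod q) = ((2 * b' : ℕ) : ZMod q) := neg_injective h3
  rw [ZMod.natCast_eq_natCast_iff'] at h4
  rw [Nat.mod_eq_of_lt (by nlinarith), Nat.mod_eq_of_lt (by nlinarith)] at h4
  omega

theorem of_mem_FF {s β M q k : ℕ} (hq : q.Prime) (h : k % q ∈ FF s β M q) :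
    ∃ b ∈ TT s β M, 4 * b - 1 ∣ s * q + 1 ∧ q ∣ k + 2 * b := by
  have := Fact.mk hq
  obtain ⟨b, hb, he⟩ := mem_image.1 h
  have h0 := mem_filter.1 hb
  refine ⟨b, h0.1, h0.2, ?_⟩
  have h3 : (k : ZMod q) = -((2 * b : ℕ) : ZMod q) := by
    have h4 : ((k % q : ℕ) : ZMod q) = (k : ZMod q) := ZMod.natCast_mod k q
    rw [← h4, ← he, ZMod.natCast_zmod_val]
  rw [← ZMod.natCast_eq_zero_iff, Nat.cast_add, h3]
  ring

/-- the lower bound of `E` -/
theorem EF_ge {s β M : ℕ} (hM2 : 2 ≤ M) (c : ℕ → ℝ) (hc : ∀ b : ℕ, 1 ≤ b → ∀ z : ℕ, 3 ≤ z →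
    Real.log (Real.log z) / (4 * (4 * b - 1).totient) - c b ≤
      ∑ q ∈ (Icc 1 z).filter (fun q => q.Prime ∧ 4 * b - 1 ∣ s * q + 1), (1 : ℝ) / q) {z : ℕ} (hz : 3 ≤ z) :
    Real.log (Real.log z) * (∑ b ∈ TT s β M, 1 / (4 * ((4 * b - 1).totient : ℝ))) -
      ∑ b ∈ Icc 1 M, (|c b| + (M : ℝ) ^ 2) ≤ ∑ q ∈ Pz M z, ((FF s β M q).card : ℝ) / q := by
  have h1 : ∑ q ∈ Pz M z, ((FF s β M q).card : ℝ) / q =
      ∑ b ∈ TT s β M, ∑ q ∈ (Pz M z).filter (fun q => 4 * b - 1 ∣ s * q + 1), (1 : ℝ) / q := by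
    have h2 : ∀ q ∈ Pz M z, ((FF s β M q).card : ℝ) / q =
        ∑ b ∈ TT s β M, if 4 * b - 1 ∣ s * q + 1 then (1 : ℝ) / q else 0 := by
      intro q hq
      obtain ⟨h3, h4, -⟩ := mem_Pz.1 hq
      rw [FF_card hM2 h3 h4, ← sum_filter, sum_const, nsmul_eq_mul, mul_one_div]
    rw [sum_congr rfl h2, sum_comm]
    apply sum_congr rfl
    intro m _
    rw [sum_filter]
  have h2 : ∀ b ∈ TT s β M, Real.log (Real.log z) * (1 / (4 * ((4 * b - 1).totient : ℝ))) - (|c b| + (M : ℝ) ^ 2) ≤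
      ∑ q ∈ (Pz M z).filter (fun q => 4 * b - 1 ∣ s * q + 1), (1 : ℝ) / q := by
    intro b hb
    have h3 := mem_TT hb
    have h4 := hc b h3.1 z hz
    have h5 : ∑ q ∈ (Icc 1 z).filter (fun q => q.Prime ∧ 4 * b - 1 ∣ s * q + 1), (1 : ℝ) / q ≤
        ∑ q ∈ (Pz M z).filter (fun q => 4 * b - 1 ∣ s * q + 1), (1 : ℝ) / q + ∑ q ∈ Icc 1 (M ^ 2), (1 : ℝ) / q := by
      rw [← sum_filter_add_sum_filter_not ((Icc 1 z).filter (fun q => q.Prime ∧ 4 * b - 1 ∣ s * q + 1))
        (fun q => M ^ 2 < q)]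
      apply add_le_add
      · apply sum_le_sum_of_subset_of_nonneg
        · intro q hq
          rw [mem_filter, mem_filter, mem_Icc] at hq
          rw [mem_filter, mem_Pz]
          exact ⟨⟨hq.1.2.1, hq.2, hq.1.1.2⟩, hq.1.2.2⟩
        · intro q _ _
          positivity
      · apply sum_le_sum_of_subset_of_nonneg
        · intro q hq
          rw [mem_filter, mem_filter, mem_Icc] at hq
          rw [mem_Icc]
          exact ⟨hq.1.1.1, not_lt.1 hq.2⟩
        · intro q _ _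
          positivity
    have h6 : ∑ q ∈ Icc 1 (M ^ 2), (1 : ℝ) / q ≤ M ^ 2 := by
      calc ∑ q ∈ Icc 1 (M ^ 2), (1 : ℝ) / q ≤ ∑ _q ∈ Icc 1 (M ^ 2), (1 : ℝ) := by
            apply sum_le_sum
            intro q hq
            have h7 := (mem_Icc.1 hq).1
            rw [div_le_one (by positivity)]
            exact_mod_cast h7
        _ = M ^ 2 := by simp
    have h7 := le_abs_self (c b)
    have h8 : Real.log (Real.log z) * (1 / (4 * ((4 * b - 1).totient : ℝ))) =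
        Real.log (Real.log z) / (4 * (4 * b - 1).totient) := by
      ring
    rw [h8]
    linarith
  rw [h1]
  have h3 := sum_le_sum h2
  rw [sum_sub_distrib, ← mul_sum] at h3
  have h4 : ∑ b ∈ TT s β M, (|c b| + (M : ℝ) ^ 2) ≤ ∑ b ∈ Icc 1 M, (|c b| + (M : ℝ) ^ 2) :=
    sum_le_sum_of_subset_of_nonneg (filter_subset _ _) fun m _ _ => by positivity
  linarith

/-- the choice of `M` -/
theorem exM (K : ℝ) (s β : ℕ) (hβ : β = 0 ∨ β = 1) : ∃ M : ℕ, 2 ≤ M ∧
    K ≤ ∑ b ∈ TT s β M, 1 / (4 * ((4 * b - 1).totient : ℝ)) := by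
  obtain ⟨L, hL⟩ := exists_nat_ge (Real.exp (48 * K))
  refine ⟨2 * L + 3, by omega, ?_⟩
  have h1 : 48 * K ≤ Real.log ((L + 1 : ℕ) : ℝ) := by
    rw [Real.le_log_iff_exp_le (by positivity)]
    refine hL.trans ?_
    exact_mod_cast (show L ≤ L + 1 by omega)
  have h2 : Real.log ((L + 1 : ℕ) : ℝ) ≤ ∑ j ∈ Icc 1 L, (1 : ℝ) / j := by
    rw [sum_inv_Icc]
    exact log_add_one_le_harmonic L
  have h3 : ∑ j ∈ Icc 1 L, (1 : ℝ) / (48 * j) ≤ ∑ b ∈ TT s β (2 * L + 3), 1 / (4 * ((4 * b - 1).totient : ℝ)) := by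
    have hinj : Set.InjOn (fun j => 2 * j + β) ((Icc 1 L : Finset ℕ) : Set ℕ) := by
      intro a _ b _ hab
      simp only at hab
      omega
    have hsub : (Icc 1 L).image (fun j => 2 * j + β) ⊆ TT s β (2 * L + 3) := by
      intro b hb
      rw [mem_image] at hb
      obtain ⟨j, hj, rfl⟩ := hb
      rw [mem_Icc] at hj
      unfold TT
      rw [mem_filter, mem_Icc]
      refine ⟨by omega, Or.inr (by omega)⟩
    refine le_trans ?_ (sum_le_sum_of_subset_of_nonneg hsub fun b _ _ => by positivity)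
    rw [sum_image hinj]
    apply sum_le_sum
    intro j hj
    rw [mem_Icc] at hj
    have h8 : 0 < (4 * (2 * j + β) - 1).totient := Nat.totient_pos.2 (by omega)
    have h10 : (0 : ℝ) < (4 * (2 * j + β) - 1).totient := by exact_mod_cast h8
    apply one_div_le_one_div_of_le (by positivity)
    have h9 : 4 * (4 * (2 * j + β) - 1).totient ≤ 48 * j := by
      have := Nat.totient_le (4 * (2 * j + β) - 1)
      rcases hβ with h | h
      · subst h
        omega
      · subst h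
        omega
    exact_mod_cast h9
  have h4 : ∑ j ∈ Icc 1 L, (1 : ℝ) / (48 * j) = 1 / 48 * ∑ j ∈ Icc 1 L, (1 : ℝ) / j := by
    rw [mul_sum]
    refine sum_congr rfl fun j _ => ?_
    ring
  rw [h4] at h3
  linarith

theorem svRow92 : SvRow := by
  intro hRec h2 A s β hs hβ
  have hc0 : ∀ b : ℕ, ∃ c : ℝ, 1 ≤ b → ∀ z : ℕ, 3 ≤ z → Real.log (Real.log z) / (4 * (4 * b - 1).totient) - c ≤
      ∑ q ∈ (Icc 1 z).filter (fun q => q.Prime ∧ 4 * b - 1 ∣ s * q + 1), (1 : ℝ) / q := by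
    intro b
    by_cases hb : 1 ≤ b
    · obtain ⟨c, hc⟩ := hRec s b hs hb
      exact ⟨c, fun _ => hc⟩
    · exact ⟨0, fun h => absurd h hb⟩
  choose c hc using hc0
  obtain ⟨M, hM2, hKT⟩ := exM (4 * ((A + 1 : ℕ) : ℝ)) s β hβ
  have hM1 : (2 : ℝ) ≤ M := by exact_mod_cast hM2
  set K' : ℝ := ∑ b ∈ Icc 1 M, (|c b| + (M : ℝ) ^ 2) with hK'
  set K : ℝ := Real.exp (K' / 2) with hK
  have hK0 : 0 < K := Real.exp_pos _
  set d : ℝ := 1 / (100 * (M + 1) ^ 2) with hd
  have hd0 : 0 < d := by rw [hd]; positivity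
  have hd1 : d * (M * (M + 1)) ≤ 1 / 8 := by
    rw [hd, div_mul_eq_mul_div, div_le_div_iff₀ (by positivity) (by norm_num)]
    nlinarith
  have hd2 : d ≤ 1 / 100 := by
    rw [hd]
    apply one_div_le_one_div_of_le (by norm_num)
    nlinarith
  clear_value d K
  have he0 : (0 : ℝ) < 1 / (2 * M) := by positivity
  set B1 : ℝ := Real.exp (4 * M) * (K * (2 / d) ^ (2 * (A + 1))) with hB1
  set B2 : ℝ := Real.exp (4 * M) * ((2 * (A + 1)).factorial / d ^ (2 * (A + 1))) with hB2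
  set B3 : ℝ := 6 * (A.factorial * 2 ^ A) with hB3
  set B4 : ℝ := (2 / d) ^ (2 * A) with hB4
  have p1 : 0 ≤ B1 := by rw [hB1]; positivity
  have p2 : 0 ≤ B2 := by rw [hB2]; positivity
  have p3 : 0 ≤ B3 := by rw [hB3]; positivity
  have p4 : 0 ≤ B4 := by rw [hB4]; positivity
  clear_value B1 B2 B3 B4
  refine ⟨M, 1 / (2 * M), B1 + B2 + B3 + B4, he0, fun x hx => ?_⟩
  have hx0 : (0 : ℝ) < x := by exact_mod_cast (show 0 < x by omega)
  have hL : 0 < Real.log x := Real.log_pos (by exact_mod_cast (show 1 < x by omega))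
  set Lx : ℝ := Real.log x with hLx
  have hLA : 0 < Lx ^ A := by positivity
  set u : ℝ := Real.sqrt Lx with hu
  have hsq : u ^ 2 = Lx := Real.sq_sqrt hL.le
  have hs0 : 0 < u := Real.sqrt_pos.2 hL
  clear_value u
  rcases le_or_gt 2 (d * u) with hv | hv
  · -- large x
    have hu200 : 200 ≤ u := by
      have : d * u ≤ 1 / 100 * u := by gcongr
      linarith
    have hL1 : 1 ≤ Lx := by nlinarith
    have hll0 : 0 ≤ Real.log Lx := Real.log_nonneg hL1
    have hll : Real.log Lx ≤ 2 * u := by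
      rw [← hsq, Real.log_pow]
      have := Real.log_le_self hs0.le
      push_cast
      linarith
    set t₁ := ⌈Real.log Lx / (2 * M)⌉₊ + 1 with ht₁
    have ht1 : Real.log Lx / (2 * M) ≤ ((t₁ - 1 : ℕ) : ℝ) := by
      rw [ht₁, Nat.add_sub_cancel]
      exact Nat.le_ceil _
    have ht2 : (t₁ : ℝ) ≤ Real.log Lx / (2 * M) + 2 := by
      have := Nat.ceil_lt_add_one (show 0 ≤ Real.log Lx / (2 * M) by positivity)
      rw [ht₁]
      push_cast
      linarith
    have ht3 : 1 ≤ t₁ := by omega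
    clear_value t₁
    have ht4 : (t₁ : ℝ) * (d * u) ≤ d * Lx := by
      have h5 : Real.log Lx / (2 * M) ≤ u / 2 := by
        rw [div_le_div_iff₀ (by positivity) (by norm_num)]
        nlinarith
      have h6 : (t₁ : ℝ) ≤ u := by linarith
      calc (t₁ : ℝ) * (d * u) ≤ u * (d * u) := by gcongr
        _ = d * Lx := by rw [← hsq]; ring
    have hvx : 34 * M * (M + 1) * (d * u) ^ 2 ≤ Real.log x / 8 := by
      rw [mul_pow, hsq, ← hLx]
      have h5 : 34 * (M : ℝ) * (M + 1) * (d ^ 2 * Lx) = 34 * (d * (M * (M + 1))) * d * Lx := by ring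
      rw [h5]
      have h6 : 34 * (d * (M * (M + 1))) * d ≤ 1 / 8 := by
        have h7 : 34 * (d * (M * (M + 1))) * d ≤ 34 * (1 / 8) * (1 / 100) := by gcongr
        linarith
      nlinarith
    have hJv : ((M * t₁ : ℕ) : ℝ) * ((M + 1) * (d * u)) ≤ Real.log x / 8 := by
      rw [← hLx]
      push_cast
      calc (M : ℝ) * t₁ * ((M + 1) * (d * u)) = (M * (M + 1)) * (t₁ * (d * u)) := by ring
        _ ≤ (M * (M + 1)) * (d * Lx) := by gcongr
        _ = (d * (M * (M + 1))) * Lx := by ring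
        _ ≤ (1 / 8) * Lx := by gcongr
        _ = Lx / 8 := by ring
    have hE2 : 4 * ((A + 1 : ℕ) : ℝ) * Real.log (d * u / 2) - K' ≤
        ∑ q ∈ Pz M ⌊Real.exp (d * u)⌋₊, ((FF s β M q).card : ℝ) / q := by
      have hev : d * u + 1 ≤ Real.exp (d * u) := Real.add_one_le_exp _
      have hz3 : 3 ≤ ⌊Real.exp (d * u)⌋₊ := Nat.le_floor (by push_cast; linarith)
      have hzge : Real.exp (d * u) < (⌊Real.exp (d * u)⌋₊ : ℝ) + 1 := Nat.lt_floor_add_one _
      have hz0 : (0 : ℝ) < (⌊Real.exp (d * u)⌋₊ : ℝ) := by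
        have : 0 < ⌊Real.exp (d * u)⌋₊ := by omega
        exact_mod_cast this
      have hlz' : d * u / 2 ≤ Real.log (⌊Real.exp (d * u)⌋₊ : ℝ) := by
        rw [Real.le_log_iff_exp_le hz0]
        have h3 : Real.exp (d * u) = Real.exp (d * u / 2) * Real.exp (d * u / 2) := by
          rw [← Real.exp_add]
          ring_nf
        have h4 : d * u / 2 + 1 ≤ Real.exp (d * u / 2) := Real.add_one_le_exp _
        nlinarith
      have hll1 : Real.log (d * u / 2) ≤ Real.log (Real.log (⌊Real.exp (d * u)⌋₊ : ℝ)) :=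
        Real.log_le_log (by linarith) hlz'
      have hll2 : 0 ≤ Real.log (d * u / 2) := Real.log_nonneg (by linarith)
      have h3 := EF_ge (β := β) hM2 c (fun b hb => hc b hb) hz3
      have h4 : 4 * ((A + 1 : ℕ) : ℝ) * Real.log (d * u / 2) ≤ Real.log (Real.log (⌊Real.exp (d * u)⌋₊ : ℝ)) *
          ∑ b ∈ TT s β M, 1 / (4 * ((4 * b - 1).totient : ℝ)) := by
        calc 4 * ((A + 1 : ℕ) : ℝ) * Real.log (d * u / 2)
            ≤ 4 * ((A + 1 : ℕ) : ℝ) * Real.log (Real.log (⌊Real.exp (d * u)⌋₊ : ℝ)) := by gcongr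
          _ = Real.log (Real.log (⌊Real.exp (d * u)⌋₊ : ℝ)) * (4 * ((A + 1 : ℕ) : ℝ)) := by ring
          _ ≤ _ := mul_le_mul_of_nonneg_left hKT (by linarith)
      rw [← hK'] at h3
      linarith
    have hb := boundG (a := A + 1) h2 hM2 (FF s β M) hv
      (fun q hq => ⟨FF_lt (mem_Pz.1 hq).1, FF_le s β M q⟩) hE2 hJv hvx
    rw [← hK] at hb
    set z := ⌊Real.exp (d * u)⌋₊ with hz
    -- the subset
    have hzx : z ≤ x := by
      have h1 : (z : ℝ) ≤ Real.exp (d * u) := Nat.floor_le (Real.exp_pos _).le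
      have h2 : Real.exp (d * u) ≤ x := by
        rw [← Real.le_log_iff_exp_le hx0, ← hLx]
        nlinarith
      exact_mod_cast h1.trans h2
    have hsub : (Icc 1 x).filter (fun n => ∀ b ∈ TT s β M, ((HH s b n x).card : ℝ) <
        1 / (2 * M) * Real.log (Real.log x)) ⊆
        (Icc 1 x).filter (fun k => ((Pz M z).filter (fun q => k % q ∈ FF s β M q)).card ≤ M * t₁) := by
      intro k hk
      rw [mem_filter] at hk ⊢
      refine ⟨hk.1, ?_⟩
      have h6 : (Pz M z).filter (fun q => k % q ∈ FF s β M q) ⊆ (TT s β M).biUnion (fun b => HH s b k x) := by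
        intro q hq
        rw [mem_filter, mem_Pz] at hq
        obtain ⟨b, hb1, hb2, hb3⟩ := of_mem_FF hq.1.1 hq.2
        rw [mem_biUnion]
        refine ⟨b, hb1, ?_⟩
        unfold HH
        rw [mem_filter, mem_Icc]
        exact ⟨⟨hq.1.1.one_lt.le, by omega⟩, hq.1.1, hb2, hb3⟩
      have h7 : ∀ b ∈ TT s β M, (HH s b k x).card ≤ t₁ := by
        intro b hb
        have h8 := hk.2 b hb
        have h9 : ((HH s b k x).card : ℝ) ≤ (t₁ : ℝ) := by
          have h10 : ((t₁ - 1 : ℕ) : ℝ) ≤ (t₁ : ℝ) := by exact_mod_cast Nat.sub_le _ _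
          have h11 : 1 / (2 * (M : ℝ)) * Real.log (Real.log x) = Real.log Lx / (2 * M) := by rw [← hLx]; ring
          linarith
        exact_mod_cast h9
      calc ((Pz M z).filter (fun q => k % q ∈ FF s β M q)).card ≤ ((TT s β M).biUnion (fun b => HH s b k x)).card :=
            card_le_card h6
        _ ≤ ∑ b ∈ TT s β M, (HH s b k x).card := card_biUnion_le
        _ ≤ ∑ b ∈ TT s β M, t₁ := sum_le_sum h7
        _ = (TT s β M).card * t₁ := by rw [sum_const, smul_eq_mul]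
        _ ≤ M * t₁ := Nat.mul_le_mul_right _ (TT_card s β M)
    have h5 : (((Icc 1 x).filter (fun n => ∀ b ∈ TT s β M, ((HH s b n x).card : ℝ) <
        1 / (2 * M) * Real.log (Real.log x))).card : ℝ) ≤
        (((Icc 1 x).filter (fun k => ((Pz M z).filter (fun q => k % q ∈ FF s β M q)).card ≤ M * t₁)).card : ℝ) := by
      exact_mod_cast card_le_card hsub
    -- the powers
    obtain ⟨e5, e4⟩ := powers92 (A := A) (K := K) hM1 hd0 hs0 hL hsq hK0 hx0 ht2 hll0 (by rw [hLx, Real.exp_log hx0])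
    rw [← hB1, ← hB2] at e5
    have hexp0 : 0 ≤ Real.exp (Lx / 2) := (Real.exp_pos _).le
    have e8 : 3 * Real.exp (Lx / 2) + (x * ((B1 + B2) / Lx ^ A) + 3 * Real.exp (Lx / 2)) ≤
        (B1 + B2 + B3) * x / Lx ^ A := by
      have h7 : (B1 + B2 + B3) * x / Lx ^ A =
          x * ((B1 + B2) / Lx ^ A) + 6 * (x * (A.factorial * 2 ^ A / Lx ^ A)) := by
        rw [hB3]
        field_simp
      rw [h7]
      linarith
    have e9 : (B1 + B2 + B3) * x / Lx ^ A ≤ (B1 + B2 + B3 + B4) * x / Lx ^ A :=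
      div_le_div_of_nonneg_right (mul_le_mul_of_nonneg_right (by linarith) hx0.le) hLA.le
    have e10 : (x : ℝ) * ((6 : ℝ) ^ (M * t₁) * (K * (2 / (d * u)) ^ (2 * (A + 1)) + Real.exp (-(d * u)))) ≤
        x * ((B1 + B2) / Lx ^ A) := mul_le_mul_of_nonneg_left e5 hx0.le
    linarith
  · -- small x
    have h5 : (((Icc 1 x).filter (fun n => ∀ b ∈ TT s β M, ((HH s b n x).card : ℝ) <
        1 / (2 * M) * Real.log (Real.log x))).card : ℝ) ≤ x := by
      have h6 : ((Icc 1 x).filter (fun n => ∀ b ∈ TT s β M, ((HH s b n x).card : ℝ) <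
        1 / (2 * M) * Real.log (Real.log x))).card ≤ x := by
        refine (card_le_card (filter_subset _ _)).trans ?_
        rw [Nat.card_Icc]
        omega
      exact_mod_cast h6
    refine h5.trans ?_
    rw [le_div_iff₀ hLA]
    have h6 : Lx ^ A ≤ B4 := by
      rw [hB4, ← hsq, ← pow_mul]
      have h7 : u ≤ 2 / d := by
        rw [le_div_iff₀ hd0]
        linarith
      exact pow_le_pow_left₀ hs0.le h7 _
    have h7 : Lx ^ A ≤ B1 + B2 + B3 + B4 := by linarith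
    calc (x : ℝ) * Lx ^ A ≤ x * (B1 + B2 + B3 + B4) := by gcongr
      _ = (B1 + B2 + B3 + B4) * x := by ring

end Pool.Agent.BR4.Sv92
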