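import Pool.Agent.BR4.Stmts
import Pool.Agent.SPM.Asm92d
import Pool.Agent.SPM.Exc92

/-!
# MP_5de915_nt, row SV (helper92), part 1: the sieve bound
-/

set_option autoImplicit false

namespace Pool.Agent.BR4.Sv92

open Finset Pool.Agent.SPM

/-- the count with at most `J` hits, general residue sets -/
theorem boundG (h2 : R2b) {M a : ℕ} (hM2 : 2 ≤ M) (F : ℕ → Finset ℕ) {x J : ℕ} {v K' : ℝ} (hv : 2 ≤ v)
    (hF : ∀ q ∈ Pz M ⌊Real.exp v⌋₊, (∀ r ∈ F q, r < q) ∧ (F q).card ≤ M)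
    (hE2 : 4 * (a : ℝ) * Real.log (v / 2) - K' ≤ ∑ q ∈ Pz M ⌊Real.exp v⌋₊, ((F q).card : ℝ) / q)
    (hJv : (J : ℝ) * ((M + 1) * v) ≤ Real.log x / 8)
    (hvx : 34 * M * (M + 1) * v ^ 2 ≤ Real.log x / 8) :
    (((Icc 1 x).filter (fun k => ((Pz M ⌊Real.exp v⌋₊).filter (fun q => k % q ∈ F q)).card ≤ J)).card : ℝ) ≤
      x * (6 ^ J * (Real.exp (K' / 2) * (2 / v) ^ (2 * a) + Real.exp (-v))) +
        3 * Real.exp (Real.log x / 2) := by
  have hM1 : (2 : ℝ) ≤ M := by exact_mod_cast hM2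
  set z := ⌊Real.exp v⌋₊ with hz
  have hev : v + 1 ≤ Real.exp v := Real.add_one_le_exp v
  have hz3 : 3 ≤ z := Nat.le_floor (by push_cast; linarith)
  have hzle : (z : ℝ) ≤ Real.exp v := Nat.floor_le (Real.exp_pos _).le
  have hz0 : (0 : ℝ) < z := by exact_mod_cast (show 0 < z by omega)
  have hlz : Real.log z ≤ v := by
    rw [Real.log_le_iff_le_exp hz0]
    exact hzle
  have hv2 : (1 : ℝ) ≤ v / 2 := by linarith
  obtain ⟨E, hE⟩ : ∃ E, E = ∑ q ∈ Pz M z, ((F q).card : ℝ) / q := ⟨_, rfl⟩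
  rw [← hE] at hE2
  have hE0 : 0 ≤ E := by rw [hE]; exact sum_nonneg fun q _ => by positivity
  have hE1 : E ≤ M * (1 + v) := by
    have h1 : E ≤ ∑ q ∈ Icc 1 z, (M : ℝ) * (1 / q) := by
      rw [hE]
      refine le_trans (sum_le_sum (f := fun q => ((F q).card : ℝ) / q) (g := fun q => (M : ℝ) * (1 / q)) ?_)
        (sum_le_sum_of_subset_of_nonneg (filter_subset _ _) fun q _ _ => by positivity)
      intro q hq
      rw [mul_one_div]
      gcongr
      exact_mod_cast (hF q hq).2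
    rw [← mul_sum, sum_inv_Icc] at h1
    refine h1.trans ?_
    gcongr
    have := harmonic_le_one_add_log z
    linarith
  have hsumcard : ∑ q ∈ Pz M z, ((F q).card : ℝ) ≤ M * z := by
    calc ∑ q ∈ Pz M z, ((F q).card : ℝ) ≤ ∑ _q ∈ Pz M z, (M : ℝ) := by
          apply sum_le_sum
          intro q hq
          exact_mod_cast (hF q hq).2
      _ = (Pz M z).card * (M : ℝ) := by simp
      _ ≤ z * M := by
          gcongr
          have h1 := card_le_card (filter_subset (fun q => q.Prime ∧ M ^ 2 < q) (Icc 1 z))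
          rw [Nat.card_Icc] at h1
          unfold Pz
          omega
      _ = M * z := by ring
  have hexpE : Real.exp (-E / 2) ≤ Real.exp (K' / 2) * (2 / v) ^ (2 * a) := by
    have h3 : Real.exp (-E / 2) ≤ Real.exp (K' / 2 - 2 * (a : ℝ) * Real.log (v / 2)) := by
      apply Real.exp_le_exp.2
      linarith
    refine h3.trans (le_of_eq ?_)
    rw [sub_eq_add_neg, Real.exp_add]
    congr 1
    have h4 : Real.exp (2 * (a : ℝ) * Real.log (v / 2)) = (v / 2) ^ (2 * a) := by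
      have h5 : 2 * (a : ℝ) * Real.log (v / 2) = ((2 * a : ℕ) : ℝ) * Real.log (v / 2) := by push_cast; ring
      rw [h5, ← Real.log_pow, Real.exp_log (by positivity)]
    rw [Real.exp_neg, h4, ← inv_pow, inv_div]
  set t := ⌈8 * (M : ℝ) * (1 + v)⌉₊ with ht
  have ht1 : 8 * (M : ℝ) * (1 + v) ≤ t := Nat.le_ceil _
  have ht2 : (t : ℝ) < 8 * (M : ℝ) * (1 + v) + 1 := Nat.ceil_lt_add_one (by positivity)
  have htv : v ≤ t := by nlinarith
  have h8E : 8 * E ≤ t := by linarith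
  have heps : (E) ^ (2 * t + 1) / (2 * t + 1).factorial ≤ Real.exp (-(3 * t)) := fin3 hE0 h8E
  have heps0 : 0 ≤ (E) ^ (2 * t + 1) / (2 * t + 1).factorial := by positivity
  have heps1 : (E) ^ (2 * t + 1) / (2 * t + 1).factorial ≤ 1 := by
    refine heps.trans ?_
    rw [Real.exp_le_one_iff]
    have : (0 : ℝ) ≤ t := Nat.cast_nonneg _
    linarith
  -- the sum S
  have hS0 : (0 : ℝ) ≤ ∑ q ∈ Pz M z, ((F q).card : ℝ) := sum_nonneg fun q _ => by positivity
  have hS1 : 1 + ∑ q ∈ Pz M z, ((F q).card : ℝ) ≤ Real.exp (M + v) := by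
    have h4 := hsumcard
    have h5 : (M : ℝ) + 1 ≤ Real.exp M := Real.add_one_le_exp _
    have h6 : (1 : ℝ) ≤ Real.exp v := by linarith
    have h7 : (M : ℝ) * z ≤ M * Real.exp v := by gcongr
    have h8 : ((M : ℝ) + 1) * Real.exp v ≤ Real.exp M * Real.exp v := by gcongr
    rw [Real.exp_add]
    linarith
  have hMv : (M : ℝ) + v ≤ (M + 1) * v := by nlinarith
  have hpowJ : (1 + ∑ q ∈ Pz M z, ((F q).card : ℝ)) ^ J ≤ Real.exp (Real.log x / 8) := by
    calc (1 + ∑ q ∈ Pz M z, ((F q).card : ℝ)) ^ J ≤ (Real.exp (M + v)) ^ J :=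
          pow_le_pow_left₀ (by linarith) hS1 _
      _ = Real.exp (J * (M + v)) := by rw [← Real.exp_nat_mul]
      _ ≤ Real.exp (Real.log x / 8) := by
          apply Real.exp_le_exp.2
          refine le_trans ?_ hJv
          gcongr
  have hthird : (1 + ∑ q ∈ Pz M z, ((F q).card : ℝ)) ^ (2 * t) ≤ Real.exp (Real.log x / 8) := by
    calc (1 + ∑ q ∈ Pz M z, ((F q).card : ℝ)) ^ (2 * t) ≤ (Real.exp (M + v)) ^ (2 * t) :=
          pow_le_pow_left₀ (by linarith) hS1 _
      _ = Real.exp ((2 * t : ℕ) * (M + v)) := by rw [← Real.exp_nat_mul]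
      _ ≤ Real.exp (Real.log x / 8) := by
          apply Real.exp_le_exp.2
          refine le_trans ?_ hvx
          push_cast
          have h5 : (t : ℝ) ≤ 13 * M * v := by nlinarith
          have h7 : 0 ≤ (t : ℝ) := Nat.cast_nonneg _
          have h8 : (0 : ℝ) ≤ (M + 1) * v := by positivity
          calc 2 * (t : ℝ) * (M + v) ≤ 2 * (13 * M * v) * ((M + 1) * v) := by gcongr
            _ ≤ 34 * M * (M + 1) * v ^ 2 := by
              have : (0 : ℝ) ≤ M * (M + 1) * v ^ 2 := by positivity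
              nlinarith
  have hR := h2 (Pz M z) F x t J (1 / M) (by positivity) (fun q hq => ⟨(mem_Pz.1 hq).1, (hF q hq).1, by
    have h3 : ((F q).card : ℝ) ≤ M := by exact_mod_cast (hF q hq).2
    have h4 : (M : ℝ) ^ 2 ≤ q := by exact_mod_cast (mem_Pz.1 hq).2.1.le
    have h5 : (M : ℝ) ≤ 1 / M * q := by
      rw [one_div, ← div_eq_inv_mul, le_div_iff₀ (by linarith)]
      linarith
    linarith⟩)
  rw [← hE] at hR
  have hx0 : (0 : ℝ) ≤ x := Nat.cast_nonneg _
  refine hR.trans ?_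
  have hL0 : 0 ≤ Real.log x := by
    have : (0 : ℝ) ≤ 34 * M * (M + 1) * v ^ 2 := by positivity
    linarith
  have hg : (J : ℝ) * (1 / M) ≤ J := by
    have h6 : (1 : ℝ) / M ≤ 1 := by
      rw [div_le_one (by linarith)]
      linarith
    calc (J : ℝ) * (1 / M) ≤ J * 1 := mul_le_mul_of_nonneg_left h6 (Nat.cast_nonneg _)
      _ = J := mul_one _
  have hW0 : 0 ≤ Real.exp (K' / 2) * (2 / v) ^ (2 * a) := by
    have : 0 < v := by linarith
    positivity
  have hmain := fin2 hg hexpE heps h8E hE0 htv hW0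
  have hlast := fin1 hpowJ hthird heps1 hL0 heps0 (pow_nonneg (by linarith) _)
  exact add_le_add (mul_le_mul_of_nonneg_left hmain hx0) hlast

end Pool.Agent.BR4.Sv92
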